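import Mathlib

/-! The Künneth formula for traces on products of curves: combinatorics. -/

set_option autoImplicit false

namespace Pool.Agent.H126U

open Polynomial Finset

/-- the nonempty sets of factors which occur in degree `i` -/
def idx (r i : ℕ) : Finset (Finset (Fin r)) :=
  Finset.univ.filter fun A => A.Nonempty ∧ A.card ≤ i ∧ i + A.card ≤ 2 * r ∧ Even (i + A.card)

/-- multiplicity of a set of `c` factors in degree `i` -/
def mult (r i c : ℕ) : ℕ := (r - c).choose ((i - c) / 2)

/-- multiplicity of the trivial part -/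
def mult0 (r i : ℕ) : ℕ := if Even i then r.choose (i / 2) else 0

theorem mult_pos {r i : ℕ} {A : Finset (Fin r)} (hA : A ∈ idx r i) : 0 < mult r i A.card := by
  unfold idx at hA
  rw [mem_filter] at hA
  obtain ⟨-, -, h1, h2, h3⟩ := hA
  unfold mult
  apply Nat.choose_pos
  omega

theorem coeff_binom (q : ℤ) (n t : ℕ) :
    ((1 + C q * X ^ 2) ^ n : ℤ[X]).coeff t =
      if Even t then (n.choose (t / 2) : ℤ) * q ^ (t / 2) else 0 := by
  have h1 : ((1 + C q * X ^ 2) ^ n : ℤ[X]) =
      ∑ k ∈ range (n + 1), C ((n.choose k : ℤ) * q ^ k) * X ^ (2 * k) := by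
    rw [add_comm, add_pow]
    refine sum_congr rfl fun k _ => ?_
    rw [one_pow, mul_one, mul_pow, ← C_pow, ← pow_mul, C_mul]
    simp only [map_natCast]
    ring
  rw [h1, finsetSum_coeff]
  simp only [coeff_C_mul, coeff_X_pow, mul_ite, mul_one, mul_zero]
  split_ifs with ht
  · obtain ⟨s, hs⟩ := ht
    have hs2 : t / 2 = s := by omega
    rw [hs2]
    by_cases hsn : s ∈ range (n + 1)
    · rw [sum_eq_single s]
      · rw [if_pos (by omega)]
      · intro b _ hb
        rw [if_neg (by omega)]
      · intro h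
        exact absurd hsn h
    · rw [Nat.choose_eq_zero_of_lt (by rw [mem_range] at hsn; omega)]
      push_cast
      rw [zero_mul]
      refine sum_eq_zero fun k hk => ?_
      rw [mem_range] at hk hsn
      rw [if_neg (by omega)]
  · refine sum_eq_zero fun k _ => ?_
    rw [if_neg]
    rintro rfl
    exact ht (even_two_mul k)

theorem poly_lhs (r i : ℕ) (a : Fin r → ℤ) (q : ℤ) :
    (∏ j, (1 + C (a j) * X + C q * X ^ 2) : ℤ[X]).coeff i =
    ∑ e : Fin r → Fin 3, if ∑ j, (e j : ℕ) = i then
      ∏ j, (if e j = 0 then 1 else if e j = 1 then a j else q) else 0 := by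
  have h1 : ∀ j : Fin r, (1 + C (a j) * X + C q * X ^ 2 : ℤ[X]) =
      ∑ e : Fin 3, C (if e = 0 then 1 else if e = 1 then a j else q) * X ^ (e : ℕ) := by
    intro j
    rw [Fin.sum_univ_three]
    simp
  simp only [h1]
  rw [Finset.prod_univ_sum, finsetSum_coeff]
  rw [Fintype.piFinset_univ]
  refine sum_congr rfl fun e _ => ?_
  rw [prod_mul_distrib, prod_pow_eq_pow_sum, ← map_prod, coeff_C_mul, coeff_X_pow]
  by_cases h : ∑ j, (e j : ℕ) = i
  · rw [if_pos h, if_pos h.symm, mul_one]
  · rw [if_neg h, if_neg (fun h' => h h'.symm), mul_zero]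

theorem poly_rhs (r i : ℕ) (a : Fin r → ℤ) (q : ℤ) :
    (∏ j, (1 + C (a j) * X + C q * X ^ 2) : ℤ[X]).coeff i =
    mult0 r i * q ^ (i / 2) +
      ∑ A ∈ idx r i, (mult r i A.card : ℤ) * q ^ ((i - A.card) / 2) * ∏ j ∈ A, a j := by
  have h1 : (∏ j, (1 + C (a j) * X + C q * X ^ 2) : ℤ[X]) =
      ∑ A : Finset (Fin r), C (∏ j ∈ A, a j) * (X ^ A.card * (1 + C q * X ^ 2) ^ (r - A.card)) := by
    have h2 : ∀ j : Fin r, (1 + C (a j) * X + C q * X ^ 2 : ℤ[X]) =
        C (a j) * X + (1 + C q * X ^ 2) := fun j => by ring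
    simp only [h2]
    rw [Finset.prod_add, Finset.powerset_univ]
    refine sum_congr rfl fun A _ => ?_
    rw [prod_mul_distrib, prod_const, prod_const, ← map_prod, mul_assoc,
      Finset.card_sdiff_of_subset (subset_univ A), card_univ, Fintype.card_fin]
  rw [h1, finsetSum_coeff]
  simp only [coeff_C_mul, coeff_X_pow_mul', coeff_binom]
  rw [← Finset.add_sum_erase _ _ (mem_univ (∅ : Finset (Fin r)))]
  congr 1
  · simp only [prod_empty, card_empty, Nat.zero_le, if_true, Nat.sub_zero, one_mul]
    unfold mult0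
    split_ifs <;> simp
  · have h3 : idx r i ⊆ univ.erase (∅ : Finset (Fin r)) := by
      intro A hA
      rw [mem_erase]
      refine ⟨?_, mem_univ _⟩
      unfold idx at hA
      rw [mem_filter] at hA
      exact hA.2.1.ne_empty
    rw [← Finset.sum_subset h3]
    · refine sum_congr rfl fun A hA => ?_
      unfold idx at hA
      rw [mem_filter] at hA
      obtain ⟨-, -, h4, h5, h6⟩ := hA
      have h7 : Even (i - A.card) := by
        obtain ⟨c, hc⟩ := h6
        exact ⟨c - A.card, by omega⟩
      rw [if_pos h4, if_pos h7]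
      unfold mult
      ring
    · intro A hA1 hA2
      rw [mem_erase] at hA1
      have hne : A.Nonempty := nonempty_iff_ne_empty.2 hA1.1
      split_ifs with h4 h5
      · have h6 : Even (i + A.card) := by
          obtain ⟨c, hc⟩ := h5
          exact ⟨c + A.card, by omega⟩
        have h7 : ¬ (i + A.card ≤ 2 * r) := by
          intro h8
          apply hA2
          unfold idx
          rw [mem_filter]
          exact ⟨mem_univ _, hne, h4, h8, h6⟩
        have h9 : A.card ≤ r := by
          have := card_le_univ A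
          rwa [Fintype.card_fin] at this
        obtain ⟨c, hc⟩ := h5
        rw [Nat.choose_eq_zero_of_lt (by omega)]
        simp
      · simp
      · simp

theorem kuenneth (r i : ℕ) (a : Fin r → ℤ) (q : ℤ) :
    (∑ e : Fin r → Fin 3, if ∑ j, (e j : ℕ) = i then
      ∏ j, (if e j = 0 then 1 else if e j = 1 then a j else q) else 0) =
    mult0 r i * q ^ (i / 2) +
      ∑ A ∈ idx r i, (mult r i A.card : ℤ) * q ^ ((i - A.card) / 2) * ∏ j ∈ A, a j := by
  rw [← poly_lhs, poly_rhs]

end Pool.Agent.H126U
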