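import Pool.Agent.H126U.Main

/-! The main theorem on all cohomology groups of products of quadratic twists of hyperelliptic
curves. -/

set_option autoImplicit false

namespace Pool.Agent.H126U

open NumberField IsDedekindDomain Pool.Agent.H341R2 Pool.Agent.H341R2.EC Pool.Agent.H126T
open Pool.Agent.H921R2.TatePole (nm two_le_nm)
open Complex Filter Topology Polynomial ComplexConjugate

variable {K : Type} [Field K] [NumberField K]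

/-- orders defined by limits along the real direction -/
theorem limit_order (P : ℝ → ℂ) (hP : ∀ᶠ ε : ℝ in 𝓝[>] 0, P ε ≠ 0) (m : ℤ) (c : ℂ) (hc : c ≠ 0)
    (h : Tendsto (fun ε : ℝ => (ε : ℂ) ^ (-m) * P ε) (𝓝[>] 0) (𝓝 c)) :
    Tendsto (fun ε : ℝ => Real.log ‖P ε‖ / Real.log (1 / ε)) (𝓝[>] 0) (𝓝 (-(m : ℝ))) := by
  have h1 : Tendsto (fun ε : ℝ => Real.log ‖(ε : ℂ) ^ (-m) * P ε‖) (𝓝[>] 0)
      (𝓝 (Real.log ‖c‖)) := h.norm.log (norm_ne_zero_iff.2 hc)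
  have h2 := (h1.div_atTop log_inv_tendsto).sub_const (m : ℝ)
  rw [zero_sub] at h2
  refine h2.congr' ?_
  filter_upwards [hP, self_mem_nhdsWithin, log_inv_tendsto.eventually_gt_atTop 0] with ε h3 h4 h5
  have hε : (0 : ℝ) < ε := h4
  have h6 : Real.log ‖(ε : ℂ) ^ (-m) * P ε‖ = m * Real.log (1 / ε) + Real.log ‖P ε‖ := by
    have h7 : ‖(ε : ℂ) ^ (-m)‖ ≠ 0 := norm_ne_zero_iff.2 (zpow_ne_zero _ (by exact_mod_cast hε.ne'))
    rw [norm_mul, Real.log_mul h7 (norm_ne_zero_iff.2 h3), norm_zpow, Complex.norm_real,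
      Real.norm_eq_abs, abs_of_pos hε, Real.log_zpow, one_div, Real.log_inv]
    push_cast
    ring
  rw [h6]
  field_simp
  ring

open Classical in
/-- the Euler product -/
noncomputable def LL (i : ℕ) {r : ℕ} (f : Fin r → (𝓞 K)[X]) (d : Fin r → 𝓞 K)
    (S : Finset (HeightOneSpectrum (𝓞 K))) (B : HeightOneSpectrum (𝓞 K) → ℂ[X]) (s : ℂ) : ℂ :=
  ∏' v : HeightOneSpectrum (𝓞 K),
    if v ∈ S then ((B v).eval (((nm v : ℕ) : ℂ) ^ (-s)))⁻¹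
    else Complex.exp (∑' m : ℕ, (traceH i v f d (m + 1) : ℂ) *
      ((nm v : ℕ) : ℂ) ^ (-((m + 1 : ℂ) * s)) / (m + 1 : ℂ))

theorem aa_bad (i : ℕ) {r : ℕ} (f : Fin r → (𝓞 K)[X]) (d : Fin r → 𝓞 K)
    (S : Finset (HeightOneSpectrum (𝓞 K))) (τ : ℝ) {v : HeightOneSpectrum (𝓞 K)}
    (hv : ¬ v ∉ S) : aa i f d S τ v = 0 := by
  unfold aa
  rw [if_neg hv]

theorem sqrt_pow_rpow {q : ℝ} (hq : 0 ≤ q) (i m : ℕ) :
    Real.sqrt (q ^ m) ^ i = (q ^ ((i : ℝ) / 2)) ^ m := by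
  rw [Real.sqrt_eq_rpow, ← Real.rpow_natCast q m, ← Real.rpow_mul hq,
    ← Real.rpow_natCast (q ^ ((m : ℝ) * (1 / 2))) i, ← Real.rpow_mul hq,
    ← Real.rpow_natCast (q ^ ((i : ℝ) / 2)) m, ← Real.rpow_mul hq]
  congr 1
  ring

theorem aa_good (i : ℕ) {r : ℕ} (f : Fin r → (𝓞 K)[X]) (d : Fin r → 𝓞 K)
    (S : Finset (HeightOneSpectrum (𝓞 K))) (τ ε : ℝ) {v : HeightOneSpectrum (𝓞 K)}
    (hv : v ∉ S) : aa i f d S τ v * (((nm v : ℝ) ^ (-(1 + ε)) : ℝ) : ℂ) =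
      (traceH i v f d 1 : ℂ) * ((nm v : ℕ) : ℂ) ^ (-((i : ℂ) / 2 + 1 + τ * I + ε)) := by
  have h0 : ((nm v : ℕ) : ℂ) ≠ 0 := (sysK K).N_ne v
  have hq := (nm_pos' v).le
  have h1 : (Real.sqrt (nm v) ^ i)⁻¹ = (nm v : ℝ) ^ (-((i : ℝ) / 2)) := by
    have := sqrt_pow_rpow hq i 1
    rw [pow_one, pow_one] at this
    rw [this, Real.rpow_neg hq]
  unfold aa
  rw [if_pos hv, h1, Complex.ofReal_mul, Complex.ofReal_cpow hq, Complex.ofReal_cpow hq]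
  push_cast
  rw [mul_assoc, mul_assoc, ← Complex.cpow_add _ _ h0, ← Complex.cpow_add _ _ h0]
  congr 2
  ring

theorem LL_eq (i : ℕ) {r : ℕ} (f : Fin r → (𝓞 K)[X]) (d : Fin r → 𝓞 K)
    (S : Finset (HeightOneSpectrum (𝓞 K))) (B : HeightOneSpectrum (𝓞 K) → ℂ[X]) (s : ℂ)
    [DecidablePred fun v : HeightOneSpectrum (𝓞 K) => v ∉ S] :
    LL i f d S B s = ∏' v : HeightOneSpectrum (𝓞 K), if v ∉ S then
      cexp (∑' m : ℕ, (traceH i v f d (m + 1) : ℂ) *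
      ((nm v : ℕ) : ℂ) ^ (-((m + 1 : ℂ) * s)) / (m + 1 : ℂ)) else
      ((B v).eval (((nm v : ℕ) : ℂ) ^ (-s)))⁻¹ := by
  unfold LL
  refine tprod_congr fun v => ?_
  by_cases hv : v ∈ S
  · rw [if_pos hv, if_neg (not_not.2 hv)]
  · rw [if_neg hv, if_pos hv]

theorem LL_log {i r : ℕ} {f : Fin r → (𝓞 K)[X]} (hodd : ∀ j, Odd (f j).natDegree)
    (h3 : ∀ j, 3 ≤ (f j).natDegree) {d : Fin r → 𝓞 K} {S : Finset (HeightOneSpectrum (𝓞 K))}
    (hS : ∀ v, v ∉ S → Gd f d v) (B : HeightOneSpectrum (𝓞 K) → ℂ[X]) (τ : ℝ)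
    (hB : ∀ v ∈ S, (B v).eval (((nm v : ℕ) : ℂ) ^ (-((i : ℂ) / 2 + 1 + τ * I))) ≠ 0) :
    ∃ C' : ℝ, ∀ᶠ ε : ℝ in 𝓝[>] 0, LL i f d S B ((i : ℂ) / 2 + 1 + τ * I + ε) ≠ 0 ∧
      |(sysK K).E ε (fun v => (aa i f d S τ v).re) -
        Real.log ‖LL i f d S B ((i : ℂ) / 2 + 1 + τ * I + ε)‖| ≤ C' := by
  let inst : DecidablePred fun v : HeightOneSpectrum (𝓞 K) => v ∉ S :=
    fun v => Classical.propDecidable _
  set ρ : ℂ := (i : ℂ) / 2 + 1 + τ * I with hρ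
  have hρre : ρ.re = (i : ℝ) / 2 + 1 := by
    have h2 : ((i : ℂ) / 2) = (((i : ℝ) / 2 : ℝ) : ℂ) := by push_cast; rfl
    rw [hρ, h2]
    simp
  set Bt : ℝ := mult0 r i + ∑ A ∈ idx r i, bb i f A with hBt
  have hb : 0 ≤ Bt := add_nonneg (Nat.cast_nonneg _) (Finset.sum_nonneg fun A _ => bb_nonneg h3 A)
  have hfin : {v : HeightOneSpectrum (𝓞 K) | ¬ v ∉ S}.Finite := by
    refine S.finite_toSet.subset fun v hv => ?_
    simpa using hv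
  have h := log_norm (sysK K) (Good := fun v => v ∉ S) (hdec := inst) hfin B ρ
    (fun v hv => hB v (not_not.1 hv)) (aa i f d S τ) (K := Bt)
    (fun v => norm_aa hodd h3 hS τ v)
    (fun v hv => aa_bad i f d S τ hv)
    (fun ε v => ∑' m : ℕ, (traceH i v f d (m + 1) : ℂ) *
      ((nm v : ℕ) : ℂ) ^ (-((m + 1 : ℂ) * (ρ + ε))) / (m + 1 : ℂ)) (C := 2 * Bt) (by
      intro ε hε v hv
      have h0 : ((nm v : ℕ) : ℂ) ≠ 0 := (sysK K).N_ne v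
      have hq := nm_pos' v
      have hsre : (ρ + ε : ℂ).re = (i : ℝ) / 2 + 1 + ε := by
        rw [Complex.add_re, hρre, Complex.ofReal_re]
      have h1 := (sysK K).goodLog_bound (fun m => (traceH i v f d m : ℂ)) Bt ((i : ℝ) / 2)
        hb v (by
          intro m
          have h2 := traceH_bound (i := i) hodd (hS v hv) (m + 1) (by omega)
          rw [Complex.norm_intCast]
          rw [sqrt_pow_rpow hq.le] at h2
          exact h2) (ρ + ε) (by rw [hsre]; linarith)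
      have h4 := aa_good i f d S τ ε hv
      rw [← hρ] at h4
      have h5 : ‖(∑' m : ℕ, (traceH i v f d (m + 1) : ℂ) *
          ((nm v : ℕ) : ℂ) ^ (-((m + 1 : ℂ) * (ρ + ε))) / (m + 1 : ℂ)) -
          (traceH i v f d 1 : ℂ) * ((nm v : ℕ) : ℂ) ^ (-(ρ + ε))‖ ≤
          2 * Bt * (nm v : ℝ) ^ (-2 : ℝ) := h1
      rw [← h4] at h5
      exact h5)
  obtain ⟨C', hC'⟩ := h
  refine ⟨C', ?_⟩
  filter_upwards [hC'] with ε hε
  rw [@LL_eq K _ _ i r f d S B (ρ + ε) inst]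
  exact hε

theorem main (i : ℕ) {r : ℕ} (f : Fin r → (𝓞 K)[X]) (hodd : ∀ j, Odd (f j).natDegree)
    (h3 : ∀ j, 3 ≤ (f j).natDegree) {κ : Type} (T : Finset κ) (d : κ → Fin r → 𝓞 K) (τ : κ → ℝ)
    (hd0 : ∀ k ∈ T, ∀ j, d k j ≠ 0)
    (hsep : ∀ k ∈ T, ∀ l ∈ T, k ≠ l → ∀ A ∈ idx r i,
      IsSquare ((∏ j ∈ A, (d k j * d l j) : 𝓞 K) : K) → τ k ≠ τ l)
    (S : κ → Finset (HeightOneSpectrum (𝓞 K)))
    (hS : ∀ k ∈ T, ∀ v, v ∉ S k → ∀ j, 2 * d k j * (f j).leadingCoeff ∉ v.asIdeal)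
    (B : κ → HeightOneSpectrum (𝓞 K) → ℂ[X])
    (hB : ∀ k ∈ T, ∀ v ∈ S k, ∀ s : ℂ, s.re = (i : ℝ) / 2 + 1 →
      (B k v).eval (((nm v : ℕ) : ℂ) ^ (-s)) ≠ 0) (N : ℕ)
    (hN : N = ∑ A ∈ idx r i, mult r i A.card * ∏ j ∈ A, ((f j).natDegree - 1)) :
    (∀ η : ℝ, 0 < η → ∀ᶠ ε : ℝ in 𝓝[>] 0,
      ∑ k ∈ T, (Real.log ‖LL i f (d k) (S k) (B k) ((i : ℂ) / 2 + 1 + τ k * I + ε)‖ /
        Real.log (1 / ε) - if τ k = 0 then (mult0 r i : ℝ) else 0) ^ 2 ≤ (N : ℝ) ^ 2 + η) ∧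
    (∀ (m : κ → ℤ) (c : κ → ℂ), (∀ k ∈ T, c k ≠ 0 ∧ Tendsto (fun ε : ℝ => (ε : ℂ) ^ (-m k) *
        LL i f (d k) (S k) (B k) ((i : ℂ) / 2 + 1 + τ k * I + ε)) (𝓝[>] 0) (𝓝 (c k))) →
      ∑ k ∈ T, (m k + if τ k = 0 then (mult0 r i : ℤ) else 0) ^ 2 ≤ (N : ℤ) ^ 2) := by
  classical
  have hNb : (N : ℝ) = ∑ A ∈ idx r i, bb i f A := by
    rw [hN]
    push_cast
    refine Finset.sum_congr rfl fun A _ => ?_
    unfold bb
    congr 1
    refine Finset.prod_congr rfl fun j _ => ?_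
    rw [Nat.cast_sub (by have := h3 j; omega)]
    push_cast
    ring
  have hG : ∀ k ∈ T, ∀ v, v ∉ S k → Gd f (d k) v := by
    intro k hk v hv j
    have h := hS k hk v hv j
    refine ⟨fun h2 => h ?_, fun h2 => h ?_, fun h2 => h ?_⟩
    · rw [mul_assoc]
      exact v.asIdeal.mul_mem_right _ h2
    · rw [mul_right_comm]
      exact v.asIdeal.mul_mem_left _ h2
    · exact v.asIdeal.mul_mem_left _ h2
  have hre : ∀ t : ℝ, ((i : ℂ) / 2 + 1 + t * I).re = (i : ℝ) / 2 + 1 := by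
    intro t
    have h2 : ((i : ℂ) / 2) = (((i : ℝ) / 2 : ℝ) : ℂ) := by push_cast; rfl
    rw [h2]
    simp
  have hlog : ∀ k ∈ T, ∃ C' : ℝ, ∀ᶠ ε : ℝ in 𝓝[>] 0,
      LL i f (d k) (S k) (B k) ((i : ℂ) / 2 + 1 + τ k * I + ε) ≠ 0 ∧
      |(sysK K).E ε (fun v => (aa i f (d k) (S k) (τ k) v).re) -
        Real.log ‖LL i f (d k) (S k) (B k) ((i : ℂ) / 2 + 1 + τ k * I + ε)‖| ≤ C' := fun k hk =>
    LL_log hodd h3 (hG k hk) (B k) (τ k) fun v hv => hB k hk v hv _ (hre _)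
  have hmean : ∀ η : ℝ, 0 < η → ∀ᶠ ε : ℝ in 𝓝[>] 0,
      ∑ k ∈ T, (Real.log ‖LL i f (d k) (S k) (B k) ((i : ℂ) / 2 + 1 + τ k * I + ε)‖ /
        Real.log (1 / ε) - if τ k = 0 then (mult0 r i : ℝ) else 0) ^ 2 ≤ (N : ℝ) ^ 2 + η := by
    intro η hη
    rw [hNb]
    exact final_bound (sysK K) T (idx r i) (tt i f) (fun A k => ww (d k) (τ k) A) (bb i f)
      (fun A hA => bb_pos h3 hA) (fun A _ v => norm_tt hodd h3 A v)
      (fun A k v => norm_ww (d k) (τ k) A v)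
      (fun A hA k hk l hl hkl => ww_orth (hd0 k hk) (hd0 l hl) A (hsep k hk l hl hkl A hA))
      (fun k ε => Real.log ‖LL i f (d k) (S k) (B k) ((i : ℂ) / 2 + 1 + τ k * I + ε)‖)
      (fun k => if τ k = 0 then (mult0 r i : ℝ) else 0) (by
        intro k hk η' hη'
        obtain ⟨C', hC'⟩ := hlog k hk
        filter_upwards [hC', mean_aa hodd h3 (hG k hk) (τ k) (half_pos hη'),
          (sysK K).lam_tendsto.eventually_ge_atTop (2 / η' * C')] with ε h1 h2 h4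
        have e2 : C' ≤ η' / 2 * (sysK K).lam ε := by
          have := mul_le_mul_of_nonneg_left h4 (by positivity : 0 ≤ η' / 2)
          have e3 : η' / 2 * (2 / η' * C') = C' := by field_simp
          rwa [e3] at this
        have e5 : ∀ x y w z l : ℝ, |x - y| ≤ η' / 2 * l → |x - w - z| ≤ η' / 2 * l →
            |y - w - z| ≤ η' * l := by
          intro x y w z l h5 h6
          have e6 : y - w - z = (x - w - z) + -(x - y) := by ring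
          rw [e6]
          refine (abs_add_le _ _).trans ?_
          rw [abs_neg]
          linarith
        exact e5 _ _ _ _ _ (h1.2.trans e2) h2) hη
  refine ⟨hmean, ?_⟩
  intro m c hm
  have hlim : Tendsto (fun ε : ℝ => ∑ k ∈ T,
      (Real.log ‖LL i f (d k) (S k) (B k) ((i : ℂ) / 2 + 1 + τ k * I + ε)‖ / Real.log (1 / ε) -
        if τ k = 0 then (mult0 r i : ℝ) else 0) ^ 2) (𝓝[>] 0)
      (𝓝 (∑ k ∈ T, (-(m k : ℝ) - if τ k = 0 then (mult0 r i : ℝ) else 0) ^ 2)) := by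
    refine tendsto_finsetSum T fun k hk => ?_
    obtain ⟨C', hC'⟩ := hlog k hk
    exact ((limit_order _ (hC'.mono fun ε h => h.1) (m k) (c k) (hm k hk).1
      (hm k hk).2).sub_const _).pow 2
  have hle : ∀ η : ℝ, 0 < η →
      ∑ k ∈ T, (-(m k : ℝ) - if τ k = 0 then (mult0 r i : ℝ) else 0) ^ 2 ≤ (N : ℝ) ^ 2 + η :=
    fun η hη => le_of_tendsto hlim (hmean η hη)
  have hle2 := le_of_forall_pos_le_add hle
  have e1 : ((∑ k ∈ T, (m k + if τ k = 0 then (mult0 r i : ℤ) else 0) ^ 2 : ℤ) : ℝ) =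
      ∑ k ∈ T, (-(m k : ℝ) - if τ k = 0 then (mult0 r i : ℝ) else 0) ^ 2 := by
    push_cast
    refine Finset.sum_congr rfl fun k _ => ?_
    split_ifs <;> ring
  rw [← e1] at hle2
  exact_mod_cast hle2

end Pool.Agent.H126U
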