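import Pool.Agent.H126U.Twist

/-! Traces of Frobenius for hyperelliptic curves of arbitrary degree, and their quadratic twists. -/

set_option autoImplicit false

namespace Pool.Agent.H126U

open Polynomial Pool.Agent.H126T Pool.Agent.H341R2

/-- number of points at infinity of the smooth model of `d y² = f(x)` over the extension of degree
`m` of `k` -/
noncomputable def infPts (k : Type) [Field k] (f : k[X]) (d : k) (m : ℕ) : ℕ :=
  if Odd f.natDegree then 1 else
    Nat.card {y : AlgebraicClosure k // y ^ (Nat.card k ^ m) = y ∧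
      algebraMap k (AlgebraicClosure k) d * y ^ 2 =
        algebraMap k (AlgebraicClosure k) f.leadingCoeff}

section
variable {k : Type} [Field k] [Finite k]

theorem inf_eq (c d : k) (m : ℕ) (E : Type) [Field E] [Finite E] [Algebra k E]
    (hE : Nat.card E = Nat.card k ^ m) :
    Nat.card {y : AlgebraicClosure k // y ^ (Nat.card k ^ m) = y ∧
      algebraMap k (AlgebraicClosure k) d * y ^ 2 = algebraMap k (AlgebraicClosure k) c} =
    Nat.card {y : E // algebraMap k E d * y ^ 2 = algebraMap k E c} := by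
  classical
  have : Module.Finite k E := Module.Finite.of_finite
  have : Algebra.IsAlgebraic k E := Algebra.IsAlgebraic.of_finite k E
  let g : E →ₐ[k] AlgebraicClosure k := IsAlgClosed.lift
  let _ : Algebra E (AlgebraicClosure k) := g.toRingHom.toAlgebra
  let _ := Fintype.ofFinite E
  have hg : ∀ x : E, algebraMap E (AlgebraicClosure k) x = g x := fun x => rfl
  have hfix : ∀ x : E, g x ^ (Nat.card k ^ m) = g x := by
    intro x
    rw [← map_pow, ← hE, Nat.card_eq_fintype_card, FiniteField.pow_card]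
  refine (Nat.card_congr (Equiv.ofBijective (fun P : {y : E //
    algebraMap k E d * y ^ 2 = algebraMap k E c} => (⟨g P.1, hfix _, by
      have := congrArg g P.2
      rw [map_mul, map_pow, AlgHom.commutes, AlgHom.commutes] at this
      exact this⟩ : {y : AlgebraicClosure k // y ^ (Nat.card k ^ m) = y ∧
      algebraMap k (AlgebraicClosure k) d * y ^ 2 = algebraMap k (AlgebraicClosure k) c}))
      ⟨?_, ?_⟩)).symm
  · rintro ⟨x, hP⟩ ⟨x', hP'⟩ h
    simp only [Subtype.mk.injEq] at h
    apply Subtype.ext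
    exact g.toRingHom.injective h
  · rintro ⟨y, h1, h3⟩
    rw [← hE] at h1
    obtain ⟨a, ha⟩ := pow_mem_range (E := E) h1
    rw [hg] at ha
    refine ⟨⟨a, ?_⟩, ?_⟩
    · apply g.toRingHom.injective
      change g (algebraMap k E d * a ^ 2) = g (algebraMap k E c)
      rw [map_mul, map_pow, AlgHom.commutes, AlgHom.commutes, ha]
      exact h3
    · apply Subtype.ext
      exact ha

end

section
variable {k : Type} [Field k] [Fintype k] [DecidableEq k]

/-- the trace of a quadratic twist, arbitrary degree -/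
theorem traceC_twist (hk : ringChar k ≠ 2) (f : k[X]) (d : k) (hd : d ≠ 0)
    (m : ℕ) (hm : m ≠ 0) :
    ((Nat.card k : ℤ) ^ m + 1 - (affPts k f d m + infPts k f d m)) =
      quadraticChar k d ^ m * ((Nat.card k : ℤ) ^ m + 1 - (affPts k f 1 m + infPts k f 1 m)) := by
  classical
  have h0 := trace_twist hk f d hd m hm
  unfold infPts
  by_cases hodd : Odd f.natDegree
  · rw [if_pos hodd, if_pos hodd]
    exact_mod_cast h0
  · rw [if_neg hodd, if_neg hodd]
    obtain ⟨E, i1, i2, i3, hE⟩ := exists_ext (k := k) m hm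
    let _ := Fintype.ofFinite E
    rw [inf_eq _ d m E hE, inf_eq _ 1 m E hE]
    have hE2 : ringChar E ≠ 2 := by rwa [← Algebra.ringChar_eq k E]
    have hd' : algebraMap k E d ≠ 0 := by
      rwa [Ne, FaithfulSMul.algebraMap_eq_zero_iff]
    have h1' : algebraMap k E 1 ≠ 0 := by rw [map_one]; exact one_ne_zero
    have hE' : Fintype.card E = Fintype.card k ^ m := by
      rw [← Nat.card_eq_fintype_card, ← Nat.card_eq_fintype_card, hE]
    have e1 := H341R2.card_sqrt hE2 (algebraMap k E d) (algebraMap k E f.leadingCoeff) hd'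
    have e2 := H341R2.card_sqrt hE2 (algebraMap k E 1) (algebraMap k E f.leadingCoeff) h1'
    rw [e1, e2, quadChar_ext hk E m hE' d hd, map_one, map_one]
    linear_combination h0

end

section
variable {K : Type} [Field K] [NumberField K]

open NumberField IsDedekindDomain Pool.Agent.H341R2.EC
open Pool.Agent.H921R2.TatePole (nm two_le_nm)

/-- trace of `Frob^m` on `H¹` of the smooth model of `d y² = f(x)` at `v` -/
noncomputable def traceC (v : HeightOneSpectrum (𝓞 K)) (f : (𝓞 K)[X]) (d : 𝓞 K) (m : ℕ) : ℤ :=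
  (nm v : ℤ) ^ m + 1 - (affPts (𝓞 K ⧸ v.asIdeal) (f.map (Ideal.Quotient.mk v.asIdeal))
    (Ideal.Quotient.mk v.asIdeal d) m + infPts (𝓞 K ⧸ v.asIdeal)
      (f.map (Ideal.Quotient.mk v.asIdeal)) (Ideal.Quotient.mk v.asIdeal d) m)

theorem traceC_eq {v : HeightOneSpectrum (𝓞 K)} {f : (𝓞 K)[X]}
    {d : 𝓞 K} (h2 : (2 : 𝓞 K) ∉ v.asIdeal) (hd : d ∉ v.asIdeal) (m : ℕ) (hm : m ≠ 0) :
    traceC v f d m = chi d v ^ m * traceC v f 1 m := by
  have h := traceC_twist (char_v h2) (f.map (Ideal.Quotient.mk v.asIdeal))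
    (Ideal.Quotient.mk v.asIdeal d) (mk_ne hd) m hm
  unfold traceC
  rw [map_one]
  exact h

end

end Pool.Agent.H126U
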