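import Pool.Agent.H126U.STEnd

/-! Joint distribution of Frobenius classes and quadratic symbols; quadratic base change. -/

set_option autoImplicit false

namespace Pool.Agent.H126U.JT

open Filter Topology NumberField IsDedekindDomain Pool.Agent.H341R2 Pool.Agent.H341R2.EC
open Pool.Agent.H921R2.TatePole (nm two_le_nm card_above below below_le_nm)
open Pool.Agent.H126U Pool.Agent.H126U.ST

section small
variable {κ : Type}

/-- bounded sums of squares are stable under perturbations tending to zero -/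
theorem perturb (T : Finset κ) (Δ Δ' : κ → ℕ → ℝ) {c : ℝ}
    (h : ∀ η : ℝ, 0 < η → ∀ᶠ X : ℕ in atTop, ∑ k ∈ T, Δ k X ^ 2 ≤ c + η)
    (h' : ∀ k ∈ T, Tendsto (fun X => Δ' k X - Δ k X) atTop (𝓝 0)) (η : ℝ) (hη : 0 < η) :
    ∀ᶠ X : ℕ in atTop, ∑ k ∈ T, Δ' k X ^ 2 ≤ c + η := by
  have hc : 0 ≤ c := by
    refine le_of_forall_pos_le_add fun ε hε => ?_
    obtain ⟨X, hX⟩ := (h ε hε).exists
    exact (Finset.sum_nonneg fun k _ => sq_nonneg _).trans hX
  set θ : ℝ := η / (4 * (c + η)) with hθ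
  have hθ0 : 0 < θ := by positivity
  have h1 : Tendsto (fun X => (1 + 1 / θ) * ∑ k ∈ T, (Δ' k X - Δ k X) ^ 2) atTop (𝓝 0) := by
    have h2 : Tendsto (fun X => ∑ k ∈ T, (Δ' k X - Δ k X) ^ 2) atTop
        (𝓝 (∑ k ∈ T, (0 : ℝ) ^ 2)) := tendsto_finsetSum _ fun k hk => (h' k hk).pow 2
    have h3 := h2.const_mul (1 + 1 / θ)
    simpa using h3
  filter_upwards [h (η / 4) (by positivity), h1.eventually_le_const (u := η / 4) (by positivity)]
    with X hX1 hX2
  have h4 : ∀ k ∈ T, Δ' k X ^ 2 ≤ (1 + θ) * Δ k X ^ 2 + (1 + 1 / θ) * (Δ' k X - Δ k X) ^ 2 := by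
    intro k _
    set a := Δ k X
    set e := Δ' k X - Δ k X with he
    have h5 : Δ' k X = a + e := by rw [he]; ring
    rw [h5]
    have h6 : 2 * a * e ≤ θ * a ^ 2 + 1 / θ * e ^ 2 := by
      have h7 : 0 ≤ (θ * a - e) ^ 2 / θ := by positivity
      have h8 : (θ * a - e) ^ 2 / θ = θ * a ^ 2 + 1 / θ * e ^ 2 - 2 * a * e := by
        field_simp
        ring
      linarith
    nlinarith
  have h9 : θ * (c + η / 4) ≤ η / 4 := by
    rw [hθ, div_mul_eq_mul_div, div_le_iff₀ (by positivity)]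
    nlinarith
  calc ∑ k ∈ T, Δ' k X ^ 2
      ≤ ∑ k ∈ T, ((1 + θ) * Δ k X ^ 2 + (1 + 1 / θ) * (Δ' k X - Δ k X) ^ 2) :=
        Finset.sum_le_sum h4
    _ = (1 + θ) * ∑ k ∈ T, Δ k X ^ 2 + (1 + 1 / θ) * ∑ k ∈ T, (Δ' k X - Δ k X) ^ 2 := by
        rw [Finset.sum_add_distrib, Finset.mul_sum, Finset.mul_sum]
    _ ≤ (1 + θ) * (c + η / 4) + η / 4 := by
        refine add_le_add (mul_le_mul_of_nonneg_left hX1 (by positivity)) hX2
    _ ≤ c + η := by nlinarith

theorem limits (Δ : κ → ℕ → ℝ) {c : ℝ}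
    (h : ∀ T : Finset κ, ∀ η : ℝ, 0 < η → ∀ᶠ X : ℕ in atTop, ∑ k ∈ T, Δ k X ^ 2 ≤ c + η)
    (ℓ : κ → ℝ) (hℓ : ∀ k, Tendsto (Δ k) atTop (𝓝 (ℓ k))) :
    Summable (fun k => ℓ k ^ 2) ∧ ∑' k, ℓ k ^ 2 ≤ c := by
  have h1 : ∀ T : Finset κ, ∑ k ∈ T, ℓ k ^ 2 ≤ c := by
    intro T
    refine le_of_forall_pos_le_add fun η hη => ?_
    exact le_of_tendsto (tendsto_finsetSum _ fun k _ => (hℓ k).pow 2) (h T η hη)
  have h2 : Summable fun k => ℓ k ^ 2 := summable_of_sum_le (fun k => sq_nonneg _) h1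
  exact ⟨h2, h2.tsum_le_of_sum_le h1⟩

end small

variable {K : Type} [Field K] [NumberField K]

theorem tendsto_card_VS (S : Finset (HeightOneSpectrum (𝓞 K))) :
    Tendsto (fun X : ℕ => ((VS S X).card : ℝ)) atTop atTop := by
  have hpi : Tendsto (fun X : ℕ => (Nat.primeCounting X : ℝ)) atTop atTop :=
    tendsto_natCast_atTop_atTop.comp Nat.tendsto_primeCounting
  have h1 := (card_VS S).pos_mul_atTop one_pos hpi
  refine h1.congr' ?_
  filter_upwards [hpi.eventually_gt_atTop 0] with X hX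
  exact div_mul_cancel₀ _ hX.ne'

theorem mn_change (S : Finset (HeightOneSpectrum (𝓞 K))) {φ : HeightOneSpectrum (𝓞 K) → ℝ} {b : ℝ}
    (hφ : ∀ v, |φ v| ≤ b) :
    Tendsto (fun X : ℕ => mn (VS S X) φ - mn (VX K X) φ) atTop (𝓝 0) := by
  classical
  have hb : 0 ≤ b := by
    obtain ⟨v⟩ := (sysK K).nonempty
    exact (abs_nonneg _).trans (hφ v)
  have h0 : Tendsto (fun X : ℕ => 2 * S.card * b / ((VS S X).card : ℝ)) atTop (𝓝 0) :=
    tendsto_const_nhds.div_atTop (tendsto_card_VS S)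
  refine squeeze_zero_norm' ?_ h0
  filter_upwards [(tendsto_card_VS S).eventually_gt_atTop 0] with X hX
  set m : ℝ := ((VS S X).card : ℝ) with hm
  set n : ℝ := ((VX K X).card : ℝ) with hn
  have hsplit := Finset.card_filter_add_card_filter_not (s := VX K X) (fun v => v ∉ S)
  have h3 : ((VX K X).filter fun v => ¬ v ∉ S).card ≤ S.card := by
    refine Finset.card_le_card fun v hv => ?_
    exact not_not.1 (Finset.mem_filter.1 hv).2
  set e : ℝ := (((VX K X).filter fun v => ¬ v ∉ S).card : ℝ) with he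
  have he0 : 0 ≤ e := Nat.cast_nonneg _
  have he1 : e ≤ S.card := by rw [he]; exact_mod_cast h3
  have hne : n = m + e := by
    rw [hn, hm, he, ← hsplit]
    push_cast
    rfl
  have hn0 : 0 < n := by rw [hne]; linarith
  have hsum := Finset.sum_filter_add_sum_filter_not (VX K X) (fun v => v ∉ S) φ
  set A : ℝ := ∑ v ∈ VX K X, φ v with hA
  set A' : ℝ := ∑ v ∈ VS S X, φ v with hA'
  set E : ℝ := ∑ v ∈ (VX K X).filter (fun v => ¬ v ∉ S), φ v with hE
  have hAE : A = A' + E := hsum.symm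
  have hEb : |E| ≤ e * b := by
    refine (Finset.abs_sum_le_sum_abs _ _).trans ((Finset.sum_le_card_nsmul _ _ b
      fun v _ => hφ v).trans ?_)
    rw [nsmul_eq_mul]
  have hAb : |A'| ≤ m * b := by
    refine (Finset.abs_sum_le_sum_abs _ _).trans ((Finset.sum_le_card_nsmul _ _ b
      fun v _ => hφ v).trans ?_)
    rw [nsmul_eq_mul]
  have h5 : mn (VS S X) φ - mn (VX K X) φ = (A' * e - m * E) / (m * n) := by
    unfold mn
    rw [← hm, ← hn, ← hA, ← hA', hAE, hne]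
    have : m + e ≠ 0 := by rw [← hne]; exact hn0.ne'
    field_simp
    ring
  rw [h5, Real.norm_eq_abs, abs_div, abs_of_pos (mul_pos hX hn0), div_le_div_iff₀
    (mul_pos hX hn0) hX]
  have h6 : |A' * e - m * E| ≤ 2 * S.card * b * m := by
    calc |A' * e - m * E| ≤ |A' * e| + |m * E| := abs_sub _ _
      _ = |A'| * e + m * |E| := by rw [abs_mul, abs_mul, abs_of_nonneg he0, abs_of_pos hX]
      _ ≤ m * b * e + m * (e * b) := add_le_add (mul_le_mul_of_nonneg_right hAb he0)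
          (mul_le_mul_of_nonneg_left hEb hX.le)
      _ = 2 * e * b * m := by ring
      _ ≤ 2 * S.card * b * m := by
          refine mul_le_mul_of_nonneg_right (mul_le_mul_of_nonneg_right ?_ hb) hX.le
          linarith
  calc |A' * e - m * E| * m ≤ 2 * S.card * b * m * m := mul_le_mul_of_nonneg_right h6 hX.le
    _ ≤ 2 * S.card * b * (m * n) := by
        rw [mul_assoc]
        refine mul_le_mul_of_nonneg_left ?_ (by positivity)
        refine mul_le_mul_of_nonneg_left ?_ hX.le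
        rw [hne]; linarith

theorem mn_change' (S S' : Finset (HeightOneSpectrum (𝓞 K))) {φ : HeightOneSpectrum (𝓞 K) → ℝ}
    {b : ℝ} (hφ : ∀ v, |φ v| ≤ b) :
    Tendsto (fun X : ℕ => mn (VS S X) φ - mn (VS S' X) φ) atTop (𝓝 0) := by
  have h := (mn_change S hφ).sub (mn_change S' hφ)
  rw [sub_zero] at h
  refine h.congr fun X => ?_
  ring

theorem diffG {r : ℕ} {d : Fin r → 𝓞 K} {v : HeightOneSpectrum (𝓞 K)}
    (g : (Fin r → ℤˣ) → ℝ) (h : ∀ j, d j ∉ v.asIdeal) :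
    g (sgn d v) - ft g ∅ = ∑ A ∈ Finset.univ.erase (∅ : Finset (Fin r)),
      ft g A * (chi (∏ j ∈ A, d j) v : ℝ) := by
  rw [ft_inv g (sgn d v), ← Finset.add_sum_erase _ _ (Finset.mem_univ (∅ : Finset (Fin r)))]
  have h2 : sg (sgn d v) ∅ = 1 := Finset.prod_empty
  rw [h2, one_mul, add_sub_cancel_left]
  refine Finset.sum_congr rfl fun A _ => ?_
  rw [mul_comm, chi_prod, Int.cast_prod]
  congr 1
  unfold sg
  refine Finset.prod_congr rfl fun j _ => ?_
  rw [sgn_eq (h j)]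

theorem mainT {r : ℕ} {κ : Type} (T : Finset κ) (d : κ → Fin r → 𝓞 K)
    (hsep : ∀ k ∈ T, ∀ l ∈ T, k ≠ l → ∀ A : Finset (Fin r), A.Nonempty →
      ¬ IsSquare ((∏ j ∈ A, (d k j * d l j) : 𝓞 K) : K))
    (hd0 : ∀ k ∈ T, ∀ j, d k j ≠ 0)
    (S : Finset (HeightOneSpectrum (𝓞 K)))
    (hS : ∀ v, v ∉ S → ∀ k ∈ T, ∀ j, d k j ∉ v.asIdeal)
    (G : HeightOneSpectrum (𝓞 K) → (Fin r → ℤˣ) → ℝ) (b : ℝ) (hG : ∀ v s, |G v s| ≤ b)
    (η : ℝ) (hη : 0 < η) :
    ∀ᶠ X : ℕ in atTop, ∑ k ∈ T, (mn (VS S X) (fun v => G v (sgn (d k) v)) -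
      mn (VS S X) (fun v => ft (G v) ∅)) ^ 2 ≤ (2 ^ r - 1) * b ^ 2 + η := by
  classical
  have hb : 0 ≤ b := by
    obtain ⟨v⟩ := (sysK K).nonempty
    exact (abs_nonneg _).trans (hG v 1)
  set P : Finset (Finset (Fin r)) := Finset.univ.erase ∅ with hP
  have hPcard : (P.card : ℝ) = 2 ^ r - 1 := by
    rw [hP, Finset.card_erase_of_mem (Finset.mem_univ _), Finset.card_univ, Fintype.card_finset,
      Fintype.card_fin, Nat.cast_sub Nat.one_le_two_pow]
    push_cast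
    rfl
  have hPn : ∀ A ∈ P, A.Nonempty := fun A hA =>
    Finset.nonempty_iff_ne_empty.2 (Finset.mem_erase.1 hA).1
  set M : ℝ := (P.card : ℝ) ^ 2 * (T.card : ℝ) ^ 2 * b ^ 2 + 1 with hM
  have hM0 : 0 < M := by positivity
  set δ : ℝ := η / M with hδ
  have hδ0 : 0 < δ := by positivity
  have ev : ∀ᶠ X : ℕ in atTop, ∀ A ∈ P, ∀ k ∈ T, ∀ l ∈ T, k ≠ l →
      |mn (VS S X) (fun v => (chi (∏ j ∈ A, d k j) v : ℝ) * (chi (∏ j ∈ A, d l j) v : ℝ))| ≤ δ := by
    rw [Filter.eventually_all_finset]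
    intro A hA
    rw [Filter.eventually_all_finset]
    intro k hk
    rw [Filter.eventually_all_finset]
    intro l hl
    by_cases hkl : k = l
    · exact Filter.Eventually.of_forall fun _ h => absurd hkl h
    · have h1 : (∏ j ∈ A, d k j) * (∏ j ∈ A, d l j) ≠ 0 :=
        mul_ne_zero (Finset.prod_ne_zero_iff.2 fun j _ => hd0 k hk j)
          (Finset.prod_ne_zero_iff.2 fun j _ => hd0 l hl j)
      have h2 : ¬ IsSquare (((∏ j ∈ A, d k j) * (∏ j ∈ A, d l j) : 𝓞 K) : K) := by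
        rw [← Finset.prod_mul_distrib]
        exact hsep k hk l hl hkl A (hPn A hA)
      have h3 := mn_VS S (fun v => chi_abs _ v) (chi_mean h1 h2)
      have h4 : (fun v => (chi (∏ j ∈ A, d k j) v : ℝ) * (chi (∏ j ∈ A, d l j) v : ℝ)) =
          fun v => ((chi ((∏ j ∈ A, d k j) * (∏ j ∈ A, d l j)) v : ℤ) : ℝ) := by
        funext v
        rw [chi_mul]
        push_cast
        rfl
      rw [h4]
      filter_upwards [Metric.tendsto_nhds.1 h3 δ hδ0] with X hX _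
      rw [Real.dist_eq, sub_zero] at hX
      exact hX.le
  filter_upwards [ev] with X hX
  set V := VS S X with hV
  set t : Finset (Fin r) → HeightOneSpectrum (𝓞 K) → ℝ := fun A v => ft (G v) A with ht
  have htb : ∀ A v, |t A v| ≤ b := fun A v => ft_le _ hb (fun s => hG _ _) A
  have hgood : ∀ v ∈ V, v ∉ S := fun v hv => (Finset.mem_filter.1 hv).2
  have h1 : ∀ k ∈ T, mn V (fun v => G v (sgn (d k) v)) - mn V (fun v => ft (G v) ∅) =
      ∑ A ∈ P, mn V (fun v => t A v * (chi (∏ j ∈ A, d k j) v : ℝ)) := by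
    intro k hk
    rw [← mn_sub, ← mn_sum]
    refine mn_congr V fun v hv => ?_
    exact diffG (G v) fun j => hS v (hgood v hv) k hk j
  rw [Finset.sum_congr rfl fun k hk => by rw [h1 k hk]]
  have h2 : ∀ k ∈ T, (∑ A ∈ P, mn V (fun v => t A v * (chi (∏ j ∈ A, d k j) v : ℝ))) ^ 2 ≤
      P.card * ∑ A ∈ P, mn V (fun v => t A v * (chi (∏ j ∈ A, d k j) v : ℝ)) ^ 2 :=
    fun k _ => sq_sum_le_card_mul_sum_sq
  refine (Finset.sum_le_sum h2).trans ?_
  rw [← Finset.mul_sum, Finset.sum_comm]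
  have h3 : ∀ A ∈ P, ∑ k ∈ T, mn V (fun v => t A v * (chi (∏ j ∈ A, d k j) v : ℝ)) ^ 2 ≤
      mn V (fun v => t A v ^ 2) + (T.card : ℝ) ^ 2 * b ^ 2 * δ := fun A hA =>
    bessel V T (t A) (fun k v => (chi (∏ j ∈ A, d k j) v : ℝ)) hb hδ0.le (fun v _ => htb A v)
      (fun k v _ => chi_abs _ v) (fun k hk l hl hkl => hX A hA k hk l hl hkl)
  have h4 : ∑ A ∈ P, mn V (fun v => t A v ^ 2) ≤ b ^ 2 := by
    rw [← mn_sum]
    refine mn_le V (sq_nonneg b) fun v _ => ?_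
    refine le_trans ?_ (parseval_le (G v) (b := b) fun s => hG _ _)
    exact Finset.sum_le_sum_of_subset_of_nonneg (Finset.subset_univ _) fun _ _ _ => sq_nonneg _
  have h5 : ∑ A ∈ P, ∑ k ∈ T, mn V (fun v => t A v * (chi (∏ j ∈ A, d k j) v : ℝ)) ^ 2 ≤
      b ^ 2 + P.card * ((T.card : ℝ) ^ 2 * b ^ 2 * δ) := by
    refine (Finset.sum_le_sum h3).trans ?_
    rw [Finset.sum_add_distrib, Finset.sum_const, nsmul_eq_mul]
    linarith
  have h6 : (P.card : ℝ) ^ 2 * (T.card : ℝ) ^ 2 * b ^ 2 * δ ≤ η := by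
    have e1 : M * δ = η := by
      rw [hδ]
      field_simp
    have e2 : M * δ = (P.card : ℝ) ^ 2 * (T.card : ℝ) ^ 2 * b ^ 2 * δ + δ := by
      rw [hM]
      ring
    linarith
  calc (P.card : ℝ) * ∑ A ∈ P, ∑ k ∈ T,
        mn V (fun v => t A v * (chi (∏ j ∈ A, d k j) v : ℝ)) ^ 2
      ≤ P.card * (b ^ 2 + P.card * ((T.card : ℝ) ^ 2 * b ^ 2 * δ)) :=
        mul_le_mul_of_nonneg_left h5 (Nat.cast_nonneg _)
    _ = P.card * b ^ 2 + (P.card : ℝ) ^ 2 * (T.card : ℝ) ^ 2 * b ^ 2 * δ := by ring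
    _ ≤ (2 ^ r - 1) * b ^ 2 + η := by rw [← hPcard]; linarith

/-- the joint distribution, with a finite set of primes for each index -/
theorem joint {r : ℕ} {κ : Type} (d : κ → Fin r → 𝓞 K)
    (hsep : ∀ k l, k ≠ l → ∀ A : Finset (Fin r), A.Nonempty →
      ¬ IsSquare ((∏ j ∈ A, (d k j * d l j) : 𝓞 K) : K))
    (hd0 : ∀ k j, d k j ≠ 0)
    (S : κ → Finset (HeightOneSpectrum (𝓞 K)))
    (hS : ∀ k, ∀ v, v ∉ S k → ∀ j, d k j ∉ v.asIdeal)
    (G : HeightOneSpectrum (𝓞 K) → (Fin r → ℤˣ) → ℝ) (b : ℝ) (hG : ∀ v s, |G v s| ≤ b)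
    (T : Finset κ) (η : ℝ) (hη : 0 < η) :
    ∀ᶠ X : ℕ in atTop, ∑ k ∈ T, (mn (VS (S k) X) (fun v => G v (sgn (d k) v)) -
      mn (VS (S k) X) (fun v => ft (G v) ∅)) ^ 2 ≤ (2 ^ r - 1) * b ^ 2 + η := by
  classical
  have hb : 0 ≤ b := by
    obtain ⟨v⟩ := (sysK K).nonempty
    exact (abs_nonneg _).trans (hG v 1)
  set S0 := T.biUnion S with hS0
  refine perturb T (fun k X => mn (VS S0 X) (fun v => G v (sgn (d k) v)) -
      mn (VS S0 X) (fun v => ft (G v) ∅)) _ (fun η' hη' =>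
    mainT T d (fun k _ l _ => hsep k l) (fun k _ => hd0 k) S0 (fun v hv k hk j => ?_) G b hG
      η' hη') (fun k hk => ?_) η hη
  · refine hS k v (fun h => hv ?_) j
    rw [hS0, Finset.mem_biUnion]
    exact ⟨k, hk, h⟩
  · have h1 := mn_change' (S k) S0 (φ := fun v => G v (sgn (d k) v)) (b := b) fun v => hG _ _
    have h2 := mn_change' (S k) S0 (φ := fun v => ft (G v) ∅) (b := b)
      fun v => ft_le _ hb (fun s => hG _ _) _
    have h3 := h1.sub h2
    rw [sub_zero] at h3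
    refine h3.congr fun X => ?_
    ring

/-! ### quadratic base change -/

theorem card_VX_le (Y : ℕ) : ((VX K Y).card : ℝ) ≤ Module.finrank ℚ K * ((Y : ℝ) + 1) := by
  classical
  have h3 : (VX K Y).card ≤ Module.finrank ℚ K * (PX Y).card := by
    have hmaps : ∀ v ∈ VX K Y, below v ∈ PX Y := by
      intro v hv
      rw [mem_VX] at hv
      rw [mem_PX]
      exact (below_le_nm v).trans hv
    refine Finset.card_le_mul_card_image_of_maps_to hmaps _ fun p _ => ?_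
    exact card_above p _ fun v hv => (Finset.mem_filter.1 hv).2
  have h7 : (PX Y).card ≤ Y + 1 := by
    have h8 := Finset.card_le_card_of_injOn (s := PX Y)
      (t := Finset.range (Y + 1)) (fun p : Nat.Primes => (p : ℕ)) (by
        intro p hp
        have h9 : (p : ℕ) ≤ Y := mem_PX.1 hp
        exact Finset.mem_coe.2 (Finset.mem_range.2 (Nat.lt_succ_of_le h9)))
      (fun a _ b _ h => Subtype.ext h)
    rwa [Finset.card_range] at h8
  calc ((VX K Y).card : ℝ)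
      ≤ ((Module.finrank ℚ K * (PX Y).card : ℕ) : ℝ) := by exact_mod_cast h3
    _ = Module.finrank ℚ K * ((PX Y).card : ℝ) := by push_cast; rfl
    _ ≤ Module.finrank ℚ K * ((Y : ℝ) + 1) := by
        refine mul_le_mul_of_nonneg_left ?_ (Nat.cast_nonneg _)
        exact_mod_cast h7

open Classical in
/-- the primes with `χ_d = 1` -/
noncomputable def Sp (S : Finset (HeightOneSpectrum (𝓞 K))) (d : 𝓞 K) (X : ℕ) :
    Finset (HeightOneSpectrum (𝓞 K)) := (VS S X).filter fun v => chi d v = 1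

open Classical in
/-- the primes with `χ_d = -1` and `N v ^ 2 ≤ X` -/
noncomputable def In (S : Finset (HeightOneSpectrum (𝓞 K))) (d : 𝓞 K) (X : ℕ) :
    Finset (HeightOneSpectrum (𝓞 K)) := (VS S X).filter fun v => chi d v = -1 ∧ nm v ^ 2 ≤ X

/-- averages over the primes of `K(√d)` -/
noncomputable def avL (S : Finset (HeightOneSpectrum (𝓞 K))) (d : 𝓞 K) (X : ℕ)
    (φ ψ : HeightOneSpectrum (𝓞 K) → ℝ) : ℝ :=
  (2 * ∑ v ∈ Sp S d X, φ v + ∑ v ∈ In S d X, ψ v) / (2 * (Sp S d X).card + (In S d X).card)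

theorem card_In (S : Finset (HeightOneSpectrum (𝓞 K))) (d : 𝓞 K) :
    Tendsto (fun X : ℕ => ((In S d X).card : ℝ) / ((VS S X).card : ℝ)) atTop (𝓝 0) := by
  classical
  have h1 := sqrt_small (Module.finrank ℚ K : ℝ)
  have h2 := h1.div (card_VS S) one_ne_zero
  rw [zero_div] at h2
  have hpi : Tendsto (fun X : ℕ => (Nat.primeCounting X : ℝ)) atTop atTop :=
    tendsto_natCast_atTop_atTop.comp Nat.tendsto_primeCounting
  refine squeeze_zero' (Filter.Eventually.of_forall fun X => by positivity) ?_ h2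
  filter_upwards [hpi.eventually_gt_atTop 0] with X hX
  rw [Pi.div_apply, div_div_div_cancel_right₀ hX.ne']
  refine div_le_div_of_nonneg_right ?_ (Nat.cast_nonneg _)
  refine le_trans ?_ (card_VX_le (K := K) (Nat.sqrt X))
  have h3 : (In S d X).card ≤ (VX K (Nat.sqrt X)).card := by
    refine Finset.card_le_card fun v hv => ?_
    rw [mem_VX, Nat.le_sqrt']
    exact (Finset.mem_filter.1 hv).2.2
  exact_mod_cast h3

theorem sum_Sp {S : Finset (HeightOneSpectrum (𝓞 K))} {d : 𝓞 K}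
    (hS : ∀ v, v ∉ S → d ∉ v.asIdeal) (X : ℕ) (φ : HeightOneSpectrum (𝓞 K) → ℝ) :
    2 * ∑ v ∈ Sp S d X, φ v = ∑ v ∈ VS S X, (1 + (chi d v : ℝ)) * φ v := by
  classical
  unfold Sp
  rw [Finset.sum_filter, Finset.mul_sum]
  refine Finset.sum_congr rfl fun v hv => ?_
  have hv' : d ∉ v.asIdeal := hS v (Finset.mem_filter.1 hv).2
  rcases quadraticChar_dichotomy (mk_ne hv') with h1 | h1
  · have h2 : chi d v = 1 := h1
    rw [if_pos h2, h2]
    push_cast
    ring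
  · have h2 : chi d v = -1 := h1
    rw [if_neg (by rw [h2]; decide), h2]
    push_cast
    ring

end Pool.Agent.H126U.JT
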