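import Pool.Agent.H126U.Joint

/-! Quadratic base change. -/

set_option autoImplicit false

namespace Pool.Agent.H126U.JT

open Filter Topology NumberField IsDedekindDomain Pool.Agent.H341R2 Pool.Agent.H341R2.EC
open Pool.Agent.H921R2.TatePole (nm two_le_nm card_above below below_le_nm)
open Pool.Agent.H126U Pool.Agent.H126U.ST

variable {K : Type} [Field K] [NumberField K]

theorem aux1 {m : ℝ} (h : m ≠ 0) (x : ℝ) : x = m * (x / m) := by field_simp

theorem aux2 {g : ℝ} (h : g ≠ 0) (u e : ℝ) : (u * (1 - g) + e) / g = (u + e) / g - u := by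
  field_simp
  ring

theorem avL_lim {S : Finset (HeightOneSpectrum (𝓞 K))} {d : 𝓞 K} (hd : d ≠ 0)
    (hsq : ¬ IsSquare (d : K)) (hS : ∀ v, v ∉ S → d ∉ v.asIdeal)
    (φ ψ : HeightOneSpectrum (𝓞 K) → ℝ) {b : ℝ} (hφ : ∀ v, |φ v| ≤ b) (hψ : ∀ v, |ψ v| ≤ b) :
    Tendsto (fun X : ℕ => (avL S d X φ ψ - mn (VS S X) φ) -
      mn (VS S X) (fun v => (chi d v : ℝ) * φ v)) atTop (𝓝 0) := by
  classical
  have hb : 0 ≤ b := by
    obtain ⟨v⟩ := (sysK K).nonempty
    exact (abs_nonneg _).trans (hφ v)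
  obtain ⟨u, hu⟩ : ∃ u : ℕ → ℝ, ∀ X, u X = mn (VS S X) (fun v => (1 + (chi d v : ℝ)) * φ v) :=
    ⟨_, fun _ => rfl⟩
  obtain ⟨e1, he1⟩ : ∃ e1 : ℕ → ℝ, ∀ X, e1 X = (∑ v ∈ In S d X, ψ v) / ((VS S X).card : ℝ) :=
    ⟨_, fun _ => rfl⟩
  obtain ⟨g, hg⟩ : ∃ g : ℕ → ℝ, ∀ X, g X = 1 + mn (VS S X) (fun v => (chi d v : ℝ)) +
    ((In S d X).card : ℝ) / ((VS S X).card : ℝ) := ⟨_, fun _ => rfl⟩
  have hub : ∀ X, |u X| ≤ 2 * b := fun X => by
    rw [hu]
    refine mn_abs_le _ (by positivity) fun v _ => ?_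
    rw [abs_mul]
    have h1 := chi_abs d v
    have h2 : |1 + (chi d v : ℝ)| ≤ 2 := by
      rw [abs_le] at h1 ⊢
      constructor <;> linarith [h1.1, h1.2]
    exact mul_le_mul h2 (hφ v) (abs_nonneg _) (by norm_num)
  have he : Tendsto e1 atTop (𝓝 0) := by
    have h1 := (card_In S d).const_mul b
    rw [mul_zero] at h1
    refine squeeze_zero_norm (fun X => ?_) h1
    rw [he1, Real.norm_eq_abs, abs_div, abs_of_nonneg (Nat.cast_nonneg (α := ℝ) _), ← mul_div_assoc]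
    refine div_le_div_of_nonneg_right ?_ (Nat.cast_nonneg _)
    refine (Finset.abs_sum_le_sum_abs _ _).trans ((Finset.sum_le_card_nsmul _ _ b
      fun v _ => hψ v).trans ?_)
    rw [nsmul_eq_mul, mul_comm]
  have hgl : Tendsto g atTop (𝓝 1) := by
    have h1 := mn_VS S (fun v => chi_abs d v) (chi_mean hd hsq)
    have h2 := ((tendsto_const_nhds (x := (1 : ℝ))).add h1).add (card_In S d)
    rw [add_zero, add_zero] at h2
    exact h2.congr fun X => (hg X).symm
  have hkey : Tendsto (fun X => (u X * (1 - g X) + e1 X) / g X) atTop (𝓝 0) := by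
    have h1 : Tendsto (fun X => 1 - g X) atTop (𝓝 0) := by
      have := (tendsto_const_nhds (x := (1 : ℝ))).sub hgl
      simpa using this
    have h2 : Tendsto (fun X => u X * (1 - g X)) atTop (𝓝 0) := by
      have h3 : Tendsto (fun X => 2 * b * |1 - g X|) atTop (𝓝 0) := by
        have := (h1.abs).const_mul (2 * b)
        simpa using this
      refine squeeze_zero_norm (fun X => ?_) h3
      rw [Real.norm_eq_abs, abs_mul]
      exact mul_le_mul_of_nonneg_right (hub X) (abs_nonneg _)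
    have h4 := (h2.add he).div hgl one_ne_zero
    rw [add_zero, zero_div] at h4
    exact h4
  refine hkey.congr' ?_
  filter_upwards [(tendsto_card_VS S).eventually_gt_atTop 0,
    hgl.eventually (eventually_gt_nhds (show (1 / 2 : ℝ) < 1 by norm_num))] with X hX hgX
  have hg0 : g X ≠ 0 := by linarith
  have hm0 : ((VS S X).card : ℝ) ≠ 0 := hX.ne'
  have hmn : ∀ φ' : HeightOneSpectrum (𝓞 K) → ℝ, ∑ v ∈ VS S X, φ' v =
      ((VS S X).card : ℝ) * mn (VS S X) φ' := fun φ' => aux1 hm0 _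
  have h1 : 2 * ∑ v ∈ Sp S d X, φ v = ((VS S X).card : ℝ) * u X := by
    rw [sum_Sp hS, hu, hmn]
  have h2 : (2 : ℝ) * ((Sp S d X).card : ℝ) =
      ((VS S X).card : ℝ) * (1 + mn (VS S X) (fun v => (chi d v : ℝ))) := by
    have h3 := sum_Sp hS X (fun _ => (1 : ℝ))
    rw [Finset.sum_const, nsmul_eq_mul, mul_one] at h3
    rw [h3, hmn]
    congr 1
    have h4 : mn (VS S X) (fun _ : HeightOneSpectrum (𝓞 K) => (1 : ℝ)) = 1 := by
      unfold mn
      rw [Finset.sum_const, nsmul_eq_mul, mul_one]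
      exact div_self hm0
    have h5 := mn_add (VS S X) (fun _ : HeightOneSpectrum (𝓞 K) => (1 : ℝ))
      (fun v => (chi d v : ℝ))
    rw [h4] at h5
    rw [← h5]
    refine mn_congr _ fun v _ => ?_
    ring
  have h4 : ∑ v ∈ In S d X, ψ v = ((VS S X).card : ℝ) * e1 X := by
    rw [he1]
    exact aux1 hm0 _
  have h6 : avL S d X φ ψ = (u X + e1 X) / g X := by
    unfold avL
    rw [h1, h2, h4, aux1 hm0 ((In S d X).card : ℝ), ← mul_add, ← mul_add, hg,
      mul_div_mul_left _ _ hm0]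
  have h7 : u X = mn (VS S X) φ + mn (VS S X) (fun v => (chi d v : ℝ) * φ v) := by
    rw [← mn_add, hu]
    refine mn_congr _ fun v _ => ?_
    ring
  rw [h6, aux2 hg0]
  rw [sub_sub, ← h7]

theorem ft_odd (c : ℝ) : ft (r := 1) (fun s => ((s 0 : ℤ) : ℝ) * c) ∅ = 0 := by
  unfold ft
  have h3 : ∑ s : Fin 1 → ℤˣ, sg s ∅ * (((s 0 : ℤ) : ℝ) * c) = 0 := by
    have h4 : ∑ s : Fin 1 → ℤˣ, sg s ∅ * (((s 0 : ℤ) : ℝ) * c) =
        ∑ s : Fin 1 → ℤˣ, -(sg s ∅ * (((s 0 : ℤ) : ℝ) * c)) := by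
      rw [← Equiv.sum_comp (Equiv.mulRight (-1 : Fin 1 → ℤˣ))]
      refine Finset.sum_congr rfl fun s _ => ?_
      unfold sg
      rw [Finset.prod_empty, Finset.prod_empty]
      have h5 : ((Equiv.mulRight (-1 : Fin 1 → ℤˣ)) s 0 : ℤˣ) = -(s 0) := by
        simp
      rw [h5]
      push_cast
      ring
    rw [Finset.sum_neg_distrib] at h4
    linarith
  rw [h3, mul_zero]

theorem baseChange {κ : Type} (d : κ → 𝓞 K)
    (hsep : ∀ k l, k ≠ l → ¬ IsSquare ((d k * d l : 𝓞 K) : K))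
    (hns : ∀ k, ¬ IsSquare (d k : K)) (hd0 : ∀ k, d k ≠ 0)
    (S : κ → Finset (HeightOneSpectrum (𝓞 K)))
    (hS : ∀ k, ∀ v, v ∉ S k → d k ∉ v.asIdeal)
    (φ ψ : HeightOneSpectrum (𝓞 K) → ℝ) (b : ℝ) (hφ : ∀ v, |φ v| ≤ b) (hψ : ∀ v, |ψ v| ≤ b)
    (T : Finset κ) (η : ℝ) (hη : 0 < η) :
    ∀ᶠ X : ℕ in atTop, ∑ k ∈ T, (avL (S k) (d k) X φ ψ - mn (VS (S k) X) φ) ^ 2 ≤ b ^ 2 + η := by
  classical
  refine perturb T (fun k X => mn (VS (S k) X) (fun v => (chi (d k) v : ℝ) * φ v)) _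
    (fun η' hη' => ?_) (fun k _ => avL_lim (hd0 k) (hns k) (hS k) φ ψ hφ hψ) η hη
  have h1 := joint (r := 1) (fun k _ => d k) (fun k l hkl A hA => ?_) (fun k _ => hd0 k) S
    (fun k v hv _ => hS k v hv) (fun v s => ((s 0 : ℤ) : ℝ) * φ v) b (fun v s => ?_) T η' hη'
  · filter_upwards [h1] with X hX
    refine le_trans (le_of_eq ?_) (hX.trans (le_of_eq ?_))
    · refine Finset.sum_congr rfl fun k _ => ?_
      have h2 : mn (VS (S k) X) (fun v => ft (r := 1) (fun s => ((s 0 : ℤ) : ℝ) * φ v) ∅) = 0 := by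
        simp only [ft_odd]
        unfold mn
        simp
      rw [h2, sub_zero]
      congr 1
      refine mn_congr _ fun v hv => ?_
      rw [sgn_eq (hS k v (Finset.mem_filter.1 hv).2)]
    · ring
  · obtain ⟨a, ha⟩ := hA
    have hA1 : A = {0} := by
      ext i
      have : i = 0 := Subsingleton.elim _ _
      subst this
      have : a = 0 := Subsingleton.elim _ _
      subst this
      simp [ha]
    rw [hA1, Finset.prod_singleton]
    exact hsep k l hkl
  · rw [abs_mul]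
    rcases Int.units_eq_one_or (s 0) with h | h <;> rw [h] <;> simpa using hφ v

end Pool.Agent.H126U.JT
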