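import Pool.Agent.H126U.End

/-! Quadratic twists of arbitrary Euler products satisfying the Ramanujan–Deligne bound. -/

set_option autoImplicit false

namespace Pool.Agent.H126U.Mot

open NumberField IsDedekindDomain Pool.Agent.H341R2 Pool.Agent.H341R2.EC Pool.Agent.H126T
open Pool.Agent.H921R2.TatePole (nm two_le_nm)
open Complex Filter Topology Polynomial ComplexConjugate

variable {K : Type} [Field K] [NumberField K] {n : ℕ}

/-- the local factor at a good prime -/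
noncomputable def fac (α : HeightOneSpectrum (𝓞 K) → Fin n → ℂ) (d : 𝓞 K)
    (v : HeightOneSpectrum (𝓞 K)) (s : ℂ) : ℂ :=
  (∏ j, (1 - (chi d v : ℂ) * α v j * ((nm v : ℕ) : ℂ) ^ (-s)))⁻¹

open Classical in
/-- the Euler product of a quadratic twist -/
noncomputable def LM (α : HeightOneSpectrum (𝓞 K) → Fin n → ℂ) (d : 𝓞 K)
    (S : Finset (HeightOneSpectrum (𝓞 K))) (B : HeightOneSpectrum (𝓞 K) → ℂ[X]) (s : ℂ) : ℂ :=
  ∏' v : HeightOneSpectrum (𝓞 K),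
    if v ∈ S then ((B v).eval (((nm v : ℕ) : ℂ) ^ (-s)))⁻¹ else fac α d v s

/-- normalizing factor -/
noncomputable def nf (w : ℝ) (v : HeightOneSpectrum (𝓞 K)) : ℝ := (nm v : ℝ) ^ (-(w / 2))

theorem nf_pos (w : ℝ) (v : HeightOneSpectrum (𝓞 K)) : 0 < nf w v :=
  Real.rpow_pos_of_pos (nm_pos' v) _

theorem nf_mul (w : ℝ) (v : HeightOneSpectrum (𝓞 K)) : (nm v : ℝ) ^ (w / 2) * nf w v = 1 := by
  unfold nf
  rw [← Real.rpow_add (nm_pos' v), add_neg_cancel, Real.rpow_zero]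

open Classical in
/-- the untwisted coefficients -/
noncomputable def tm (α : HeightOneSpectrum (𝓞 K) → Fin n → ℂ) (w : ℝ)
    (v : HeightOneSpectrum (𝓞 K)) : ℂ :=
  if ∀ j, ‖α v j‖ ≤ (nm v : ℝ) ^ (w / 2) then (∑ j, α v j) * (nf w v : ℝ) else 0

/-- the characters -/
noncomputable def wm (d : 𝓞 K) (τ : ℝ) (v : HeightOneSpectrum (𝓞 K)) : ℂ :=
  (chi d v : ℂ) * ((nm v : ℕ) : ℂ) ^ ((τ : ℂ) * I)

theorem norm_tm (α : HeightOneSpectrum (𝓞 K) → Fin n → ℂ) (w : ℝ)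
    (v : HeightOneSpectrum (𝓞 K)) : ‖tm α w v‖ ≤ n := by
  unfold tm
  split_ifs with h
  · rw [norm_mul, Complex.norm_real, Real.norm_eq_abs, abs_of_pos (nf_pos w v)]
    have h1 : ‖∑ j, α v j‖ ≤ n * (nm v : ℝ) ^ (w / 2) := by
      refine (norm_sum_le _ _).trans ((Finset.sum_le_card_nsmul _ _ _ fun j _ => h j).trans ?_)
      rw [nsmul_eq_mul, Finset.card_univ, Fintype.card_fin]
    calc ‖∑ j, α v j‖ * nf w v ≤ n * (nm v : ℝ) ^ (w / 2) * nf w v :=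
          mul_le_mul_of_nonneg_right h1 (nf_pos w v).le
      _ = n := by rw [mul_assoc, nf_mul, mul_one]
  · rw [norm_zero]
    exact Nat.cast_nonneg _

theorem norm_wm (d : 𝓞 K) (τ : ℝ) (v : HeightOneSpectrum (𝓞 K)) : ‖wm d τ v‖ ≤ 1 := by
  unfold wm
  rw [norm_mul, Complex.norm_intCast]
  have : ‖((nm v : ℕ) : ℂ) ^ ((τ : ℂ) * I)‖ = 1 := (sysK K).norm_cpow_I v τ
  rw [this, mul_one]
  exact chi_abs _ v

theorem wm_orth {d e : 𝓞 K} (hd : d ≠ 0) (he : e ≠ 0) {τ σ : ℝ}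
    (h : IsSquare ((d * e : 𝓞 K) : K) → τ ≠ σ) :
    (sysK K).Negl fun v => (wm d τ v * conj (wm e σ v)).re := by
  have h1 : ¬ IsSquare ((d * e : 𝓞 K) : K) ∨ σ - τ ≠ 0 := by
    by_cases h2 : IsSquare ((d * e : 𝓞 K) : K)
    · exact Or.inr (sub_ne_zero.2 (h h2).symm)
    · exact Or.inl h2
  have h3 := negl_chi (mul_ne_zero hd he) (σ - τ) h1
  have h4 : ∀ v : HeightOneSpectrum (𝓞 K), (wm d τ v * conj (wm e σ v)).re =
      (chi (d * e) v : ℝ) * (((nm v : ℕ) : ℂ) ^ (-(((σ - τ : ℝ) : ℂ) * I))).re := by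
    intro v
    unfold wm
    rw [conj_w, orth_eq, Complex.re_ofReal_mul]
  intro η hη
  filter_upwards [h3 η hη] with ε h5
  have h6 : (sysK K).E ε (fun v => (wm d τ v * conj (wm e σ v)).re) =
      (sysK K).E ε (fun v => (chi (d * e) v : ℝ) *
        (((nm v : ℕ) : ℂ) ^ (-(((σ - τ : ℝ) : ℂ) * I))).re) :=
    congrArg ((sysK K).E ε) (funext h4)
  rw [h6]
  exact h5

open Classical in
/-- the normalized coefficients -/
noncomputable def am (α : HeightOneSpectrum (𝓞 K) → Fin n → ℂ) (w : ℝ) (d : 𝓞 K)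
    (S : Finset (HeightOneSpectrum (𝓞 K))) (τ : ℝ) (v : HeightOneSpectrum (𝓞 K)) : ℂ :=
  if v ∉ S then tm α w v * conj (wm d τ v) else 0

theorem norm_am (α : HeightOneSpectrum (𝓞 K) → Fin n → ℂ) (w : ℝ) (d : 𝓞 K)
    (S : Finset (HeightOneSpectrum (𝓞 K))) (τ : ℝ) (v : HeightOneSpectrum (𝓞 K)) :
    ‖am α w d S τ v‖ ≤ n := by
  unfold am
  by_cases h : v ∉ S
  · rw [if_pos h, norm_mul, Complex.norm_conj]
    exact (mul_le_of_le_one_right (norm_nonneg _) (norm_wm _ _ v)).trans (norm_tm α w v)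
  · rw [if_neg h, norm_zero]
    exact Nat.cast_nonneg _

theorem am_bad (α : HeightOneSpectrum (𝓞 K) → Fin n → ℂ) (w : ℝ) (d : 𝓞 K)
    (S : Finset (HeightOneSpectrum (𝓞 K))) (τ : ℝ) {v : HeightOneSpectrum (𝓞 K)}
    (hv : ¬ v ∉ S) : am α w d S τ v = 0 := by
  unfold am
  rw [if_neg hv]

theorem am_good (α : HeightOneSpectrum (𝓞 K) → Fin n → ℂ) (w : ℝ) (d : 𝓞 K)
    (S : Finset (HeightOneSpectrum (𝓞 K))) (τ : ℝ) {v : HeightOneSpectrum (𝓞 K)}
    (hv : v ∉ S) : am α w d S τ v = tm α w v * conj (wm d τ v) := by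
  unfold am
  rw [if_pos hv]

/-- the terms of the logarithm -/
noncomputable def bt (α : HeightOneSpectrum (𝓞 K) → Fin n → ℂ) (d : 𝓞 K)
    (v : HeightOneSpectrum (𝓞 K)) (s : ℂ) (j : Fin n) : ℂ :=
  (chi d v : ℂ) * α v j * ((nm v : ℕ) : ℂ) ^ (-s)

theorem bt_norm {α : HeightOneSpectrum (𝓞 K) → Fin n → ℂ} {w : ℝ} {d : 𝓞 K}
    {v : HeightOneSpectrum (𝓞 K)} (hα : ∀ j, ‖α v j‖ ≤ (nm v : ℝ) ^ (w / 2)) {s : ℂ}
    (hs : w / 2 + 1 ≤ s.re) (j : Fin n) : ‖bt α d v s j‖ ≤ (nm v : ℝ)⁻¹ := by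
  unfold bt
  have hq := nm_pos' v
  have hq1 : (1 : ℝ) ≤ nm v := by
    have := two_le_nm v
    exact_mod_cast (by omega : 1 ≤ nm v)
  have hcp : ‖((nm v : ℕ) : ℂ) ^ (-s)‖ = (nm v : ℝ) ^ (-s.re) := (sysK K).norm_cpow v s
  rw [norm_mul, norm_mul, Complex.norm_intCast, hcp]
  have h1 : |(chi d v : ℝ)| * ‖α v j‖ ≤ 1 * (nm v : ℝ) ^ (w / 2) :=
    mul_le_mul (chi_abs d v) (hα j) (norm_nonneg _) zero_le_one
  have h2 : (nm v : ℝ) ^ (-s.re) ≤ (nm v : ℝ) ^ (-(w / 2) - 1) :=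
    Real.rpow_le_rpow_of_exponent_le hq1 (by linarith)
  calc |(chi d v : ℝ)| * ‖α v j‖ * (nm v : ℝ) ^ (-s.re)
      ≤ (1 * (nm v : ℝ) ^ (w / 2)) * (nm v : ℝ) ^ (-(w / 2) - 1) :=
        mul_le_mul h1 h2 (by positivity) (by positivity)
    _ = (nm v : ℝ)⁻¹ := by
        rw [one_mul, ← Real.rpow_add hq, ← Real.rpow_neg_one]
        congr 1
        ring

theorem sum_bt {α : HeightOneSpectrum (𝓞 K) → Fin n → ℂ} {w : ℝ} {d : 𝓞 K}
    {S : Finset (HeightOneSpectrum (𝓞 K))} {v : HeightOneSpectrum (𝓞 K)} (hv : v ∉ S)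
    (hα : ∀ j, ‖α v j‖ ≤ (nm v : ℝ) ^ (w / 2)) (τ ε : ℝ) :
    am α w d S τ v * (((nm v : ℝ) ^ (-(1 + ε)) : ℝ) : ℂ) =
      ∑ j, bt α d v ((w : ℂ) / 2 + 1 + τ * I + ε) j := by
  have h0 : ((nm v : ℕ) : ℂ) ≠ 0 := (sysK K).N_ne v
  have hq := (nm_pos' v).le
  rw [am_good α w d S τ hv]
  unfold tm wm bt nf
  rw [if_pos hα, conj_w, ← Finset.sum_mul, ← Finset.mul_sum,
    Complex.ofReal_cpow hq, Complex.ofReal_cpow hq]
  push_cast
  have h1 : ((nm v : ℕ) : ℂ) ^ (-((w : ℂ) / 2 + 1 + τ * I + ε)) =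
      ((nm v : ℕ) : ℂ) ^ (-((w : ℂ) / 2)) * ((nm v : ℕ) : ℂ) ^ (-((τ : ℂ) * I)) *
        ((nm v : ℕ) : ℂ) ^ (-(1 + (ε : ℂ))) := by
    rw [← Complex.cpow_add _ _ h0, ← Complex.cpow_add _ _ h0]
    congr 1
    ring
  rw [h1]
  ring

theorem log_bt {x : ℂ} (hx : ‖x‖ ≤ 1 / 2) : 1 - x ≠ 0 ∧ ‖-Complex.log (1 - x) - x‖ ≤ ‖x‖ ^ 2 := by
  have h1 : ‖-x‖ < 1 := by rw [norm_neg]; linarith
  refine ⟨?_, ?_⟩
  · intro h
    have : x = 1 := (sub_eq_zero.1 h).symm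
    rw [this, norm_one] at hx
    norm_num at hx
  · have h2 := Complex.norm_log_one_add_sub_self_le h1
    rw [norm_neg] at h2
    have h3 : -Complex.log (1 - x) - x = -(Complex.log (1 + -x) - -x) := by
      rw [← sub_eq_add_neg]
      ring
    rw [h3, norm_neg]
    refine h2.trans ?_
    have h4 : (1 - ‖x‖)⁻¹ ≤ 2 := by
      rw [inv_le_comm₀ (by linarith) two_pos]
      linarith
    have h5 : 0 ≤ ‖x‖ ^ 2 := by positivity
    calc ‖x‖ ^ 2 * (1 - ‖x‖)⁻¹ / 2 ≤ ‖x‖ ^ 2 * 2 / 2 := by gcongr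
      _ = ‖x‖ ^ 2 := by ring

theorem LM_eq (α : HeightOneSpectrum (𝓞 K) → Fin n → ℂ) (d : 𝓞 K)
    (S : Finset (HeightOneSpectrum (𝓞 K))) (B : HeightOneSpectrum (𝓞 K) → ℂ[X]) (s : ℂ) (w : ℝ)
    (hα : ∀ v, v ∉ S → ∀ j, ‖α v j‖ ≤ (nm v : ℝ) ^ (w / 2)) (hs : w / 2 + 1 ≤ s.re)
    [DecidablePred fun v : HeightOneSpectrum (𝓞 K) => v ∉ S] :
    LM α d S B s = ∏' v : HeightOneSpectrum (𝓞 K), if v ∉ S then
      cexp (∑ j, -Complex.log (1 - bt α d v s j)) else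
      ((B v).eval (((nm v : ℕ) : ℂ) ^ (-s)))⁻¹ := by
  unfold LM
  refine tprod_congr fun v => ?_
  by_cases hv : v ∈ S
  · rw [if_pos hv, if_neg (not_not.2 hv)]
  · rw [if_neg hv, if_pos hv, Complex.exp_sum]
    unfold fac
    rw [← Finset.prod_inv_distrib]
    refine Finset.prod_congr rfl fun j _ => ?_
    have h1 : ‖bt α d v s j‖ ≤ 1 / 2 := by
      refine (bt_norm (hα v hv) hs j).trans ?_
      have h2 : (2 : ℝ) ≤ nm v := by exact_mod_cast two_le_nm v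
      rw [one_div]
      exact inv_anti₀ two_pos h2
    rw [Complex.exp_neg, Complex.exp_log (log_bt h1).1]
    rfl

theorem LM_log {α : HeightOneSpectrum (𝓞 K) → Fin n → ℂ} {w : ℝ} {d : 𝓞 K}
    {S : Finset (HeightOneSpectrum (𝓞 K))}
    (hα : ∀ v, v ∉ S → ∀ j, ‖α v j‖ ≤ (nm v : ℝ) ^ (w / 2))
    (B : HeightOneSpectrum (𝓞 K) → ℂ[X]) (τ : ℝ)
    (hB : ∀ v ∈ S, (B v).eval (((nm v : ℕ) : ℂ) ^ (-((w : ℂ) / 2 + 1 + τ * I))) ≠ 0) :
    ∃ C' : ℝ, ∀ᶠ ε : ℝ in 𝓝[>] 0, LM α d S B ((w : ℂ) / 2 + 1 + τ * I + ε) ≠ 0 ∧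
      |(sysK K).E ε (fun v => (am α w d S τ v).re) -
        Real.log ‖LM α d S B ((w : ℂ) / 2 + 1 + τ * I + ε)‖| ≤ C' := by
  let inst : DecidablePred fun v : HeightOneSpectrum (𝓞 K) => v ∉ S :=
    fun v => Classical.propDecidable _
  set ρ : ℂ := (w : ℂ) / 2 + 1 + τ * I with hρ
  have hρre : ρ.re = w / 2 + 1 := by
    have h2 : ((w : ℂ) / 2) = ((w / 2 : ℝ) : ℂ) := by push_cast; rfl
    rw [hρ, h2]
    simp
  have hfin : {v : HeightOneSpectrum (𝓞 K) | ¬ v ∉ S}.Finite := by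
    refine S.finite_toSet.subset fun v hv => ?_
    simpa using hv
  have h := log_norm (sysK K) (Good := fun v => v ∉ S) (hdec := inst) hfin B ρ
    (fun v hv => hB v (not_not.1 hv)) (am α w d S τ) (K := n)
    (fun v => norm_am α w d S τ v)
    (fun v hv => am_bad α w d S τ hv)
    (fun ε v => ∑ j, -Complex.log (1 - bt α d v (ρ + ε) j)) (C := n) (by
      intro ε hε v hv
      have hq := nm_pos' v
      have hq2 : (2 : ℝ) ≤ nm v := by exact_mod_cast two_le_nm v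
      have hsre : w / 2 + 1 ≤ (ρ + ε : ℂ).re := by
        rw [Complex.add_re, hρre, Complex.ofReal_re]
        linarith
      have h4 := sum_bt (S := S) (d := d) hv (hα v hv) τ ε
      rw [← hρ] at h4
      have h5 : ‖(∑ j, -Complex.log (1 - bt α d v (ρ + ε) j)) - ∑ j, bt α d v (ρ + ε) j‖ ≤
          n * (nm v : ℝ) ^ (-2 : ℝ) := by
        rw [← Finset.sum_sub_distrib]
        refine (norm_sum_le _ _).trans ((Finset.sum_le_card_nsmul _ _
          ((nm v : ℝ) ^ (-2 : ℝ)) fun j _ => ?_).trans ?_)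
        · have h6 := bt_norm (d := d) (hα v hv) hsre j
          have h7 : ‖bt α d v (ρ + ε) j‖ ≤ 1 / 2 := by
            refine h6.trans ?_
            rw [one_div]
            exact inv_anti₀ two_pos hq2
          refine (log_bt h7).2.trans ?_
          have h8 : (nm v : ℝ) ^ (-2 : ℝ) = ((nm v : ℝ)⁻¹) ^ 2 := by
            rw [Real.rpow_neg hq.le, inv_pow]
            congr 1
            exact_mod_cast Real.rpow_natCast (nm v : ℝ) 2
          rw [h8]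
          exact pow_le_pow_left₀ (norm_nonneg _) h6 2
        · rw [nsmul_eq_mul, Finset.card_univ, Fintype.card_fin]
      rw [← h4] at h5
      exact h5)
  obtain ⟨C', hC'⟩ := h
  refine ⟨C', ?_⟩
  filter_upwards [hC', self_mem_nhdsWithin] with ε hε hε0
  have hε1 : (0 : ℝ) < ε := hε0
  rw [@LM_eq K _ _ n α d S B (ρ + ε) w hα (by
    rw [Complex.add_re, hρre, Complex.ofReal_re]
    linarith) inst]
  exact hε

theorem main (hn : 0 < n) (α : HeightOneSpectrum (𝓞 K) → Fin n → ℂ) (w : ℝ)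
    {κ : Type} (T : Finset κ) (d : κ → 𝓞 K) (τ : κ → ℝ)
    (hd0 : ∀ k ∈ T, d k ≠ 0)
    (hsep : ∀ k ∈ T, ∀ l ∈ T, k ≠ l → IsSquare ((d k * d l : 𝓞 K) : K) → τ k ≠ τ l)
    (S : κ → Finset (HeightOneSpectrum (𝓞 K)))
    (hα : ∀ k ∈ T, ∀ v, v ∉ S k → ∀ j, ‖α v j‖ ≤ (nm v : ℝ) ^ (w / 2))
    (B : κ → HeightOneSpectrum (𝓞 K) → ℂ[X])
    (hB : ∀ k ∈ T, ∀ v ∈ S k,
      (B k v).eval (((nm v : ℕ) : ℂ) ^ (-((w : ℂ) / 2 + 1 + τ k * I))) ≠ 0) :
    (∀ η : ℝ, 0 < η → ∀ᶠ ε : ℝ in 𝓝[>] 0,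
      ∑ k ∈ T, (Real.log ‖LM α (d k) (S k) (B k) ((w : ℂ) / 2 + 1 + τ k * I + ε)‖ /
        Real.log (1 / ε)) ^ 2 ≤ (n : ℝ) ^ 2 + η) ∧
    (∀ Λ : κ → ℂ → ℂ, (∀ k ∈ T, MeromorphicAt (Λ k) ((w : ℂ) / 2 + 1 + τ k * I) ∧
      ∀ᶠ s in 𝓝 ((w : ℂ) / 2 + 1 + τ k * I), w / 2 + 1 < s.re →
        Λ k s = LM α (d k) (S k) (B k) s) →
      ∃ m : κ → ℤ, (∀ k ∈ T, meromorphicOrderAt (Λ k) ((w : ℂ) / 2 + 1 + τ k * I) = m k) ∧
        ∑ k ∈ T, (m k) ^ 2 ≤ (n : ℤ) ^ 2) := by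
  classical
  have hn' : (0 : ℝ) < n := by exact_mod_cast hn
  have hlog : ∀ k ∈ T, ∃ C' : ℝ, ∀ᶠ ε : ℝ in 𝓝[>] 0,
      LM α (d k) (S k) (B k) ((w : ℂ) / 2 + 1 + τ k * I + ε) ≠ 0 ∧
      |(sysK K).E ε (fun v => (am α w (d k) (S k) (τ k) v).re) -
        Real.log ‖LM α (d k) (S k) (B k) ((w : ℂ) / 2 + 1 + τ k * I + ε)‖| ≤ C' := fun k hk =>
    LM_log (hα k hk) (B k) (τ k) fun v hv => hB k hk v hv
  have hmean' : ∀ η : ℝ, 0 < η → ∀ᶠ ε : ℝ in 𝓝[>] 0,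
      ∑ k ∈ T, (Real.log ‖LM α (d k) (S k) (B k) ((w : ℂ) / 2 + 1 + τ k * I + ε)‖ /
        Real.log (1 / ε) - 0) ^ 2 ≤ (n : ℝ) ^ 2 + η := by
    intro η hη
    have h0 : ∑ j ∈ (Finset.univ : Finset Unit), (fun _ : Unit => (n : ℝ)) j = n := by simp
    have := final_bound (sysK K) T (Finset.univ : Finset Unit) (fun _ => tm α w)
      (fun _ k => wm (d k) (τ k)) (fun _ => (n : ℝ))
      (fun _ _ => hn') (fun _ _ v => norm_tm α w v)
      (fun _ k v => norm_wm (d k) (τ k) v)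
      (fun _ _ k hk l hl hkl => wm_orth (hd0 k hk) (hd0 l hl) (hsep k hk l hl hkl))
      (fun k ε => Real.log ‖LM α (d k) (S k) (B k) ((w : ℂ) / 2 + 1 + τ k * I + ε)‖)
      (fun _ => 0) (by
        intro k hk η' hη'
        obtain ⟨C', hC'⟩ := hlog k hk
        have hE0 : ∀ ε : ℝ, 0 < ε → |(sysK K).E ε (fun v => (am α w (d k) (S k) (τ k) v).re) -
            (sysK K).E ε (fun v => (tm α w v * conj (wm (d k) (τ k) v)).re)| ≤
              (S k).card * (n + n) := by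
          intro ε hε
          have hb1 : ∀ v, |(am α w (d k) (S k) (τ k) v).re| ≤ (n : ℝ) := fun v =>
            (Complex.abs_re_le_norm _).trans (norm_am α w _ _ _ v)
          have hb2 : ∀ v, |(-1) * (tm α w v * conj (wm (d k) (τ k) v)).re| ≤ (n : ℝ) := by
            intro v
            rw [abs_mul, abs_neg, abs_one, one_mul]
            refine (Complex.abs_re_le_norm _).trans ?_
            rw [norm_mul, Complex.norm_conj]
            exact (mul_le_of_le_one_right (norm_nonneg _) (norm_wm _ _ v)).trans (norm_tm α w v)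
          have h1 := E_finsupp (sysK K) (S k) (fun v => (am α w (d k) (S k) (τ k) v).re +
            (-1) * (tm α w v * conj (wm (d k) (τ k) v)).re) (by
              intro v hv
              rw [am_good α w (d k) (S k) (τ k) hv]
              ring) (n + n) (fun v => (abs_add_le _ _).trans (add_le_add (hb1 v) (hb2 v))) hε
          rw [(sysK K).E_add hε hb1 hb2, (sysK K).E_const_mul] at h1
          have h2 : (sysK K).E ε (fun v => (am α w (d k) (S k) (τ k) v).re) -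
              (sysK K).E ε (fun v => (tm α w v * conj (wm (d k) (τ k) v)).re) =
              (sysK K).E ε (fun v => (am α w (d k) (S k) (τ k) v).re) +
              -1 * (sysK K).E ε (fun v => (tm α w v * conj (wm (d k) (τ k) v)).re) := by ring
          rw [h2]
          exact h1
        filter_upwards [hC', self_mem_nhdsWithin,
          (sysK K).lam_tendsto.eventually_ge_atTop (1 / η' * (C' + (S k).card * (n + n)))]
          with ε h1 h2 h4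
        have hε : (0 : ℝ) < ε := h2
        have h5 := hE0 ε hε
        have e2 : C' + (S k).card * (n + n) ≤ η' * (sysK K).lam ε := by
          have := mul_le_mul_of_nonneg_left h4 hη'.le
          have e3 : η' * (1 / η' * (C' + (S k).card * (n + n))) = C' + (S k).card * (n + n) := by
            field_simp
          rwa [e3] at this
        rw [Finset.univ_unique, Finset.sum_singleton, zero_mul, sub_zero]
        refine le_trans ?_ e2
        have e4 : ∀ x y z a b : ℝ, |x - y| ≤ a → |x - z| ≤ b → |y - z| ≤ a + b := by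
          intro x y z a b h6 h7
          have e6 : y - z = (x - z) + -(x - y) := by ring
          rw [e6]
          refine (abs_add_le _ _).trans ?_
          rw [abs_neg]
          linarith
        exact e4 _ _ _ _ _ h1.2 h5) hη
    rw [h0] at this
    exact this
  have hmean : ∀ η : ℝ, 0 < η → ∀ᶠ ε : ℝ in 𝓝[>] 0,
      ∑ k ∈ T, (Real.log ‖LM α (d k) (S k) (B k) ((w : ℂ) / 2 + 1 + τ k * I + ε)‖ /
        Real.log (1 / ε)) ^ 2 ≤ (n : ℝ) ^ 2 + η := by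
    intro η hη
    filter_upwards [hmean' η hη] with ε h
    simpa only [sub_zero] using h
  refine ⟨hmean, ?_⟩
  intro Λ hΛ
  have hre : ∀ t : ℝ, ((w : ℂ) / 2 + 1 + t * I).re = w / 2 + 1 := by
    intro t
    have h2 : ((w : ℂ) / 2) = ((w / 2 : ℝ) : ℂ) := by push_cast; rfl
    rw [h2]
    simp
  have hex : ∀ k, ∃ m : ℤ, k ∈ T → meromorphicOrderAt (Λ k) ((w : ℂ) / 2 + 1 + τ k * I) = m ∧
      Tendsto (fun ε : ℝ => Real.log ‖LM α (d k) (S k) (B k) ((w : ℂ) / 2 + 1 + τ k * I + ε)‖ /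
        Real.log (1 / ε)) (𝓝[>] 0) (𝓝 (-(m : ℝ))) := by
    intro k
    by_cases hk : k ∈ T
    · obtain ⟨C', hC'⟩ := hlog k hk
      obtain ⟨m, h1, h2⟩ := order_limit (hΛ k hk).1
        (fun ε : ℝ => LM α (d k) (S k) (B k) ((w : ℂ) / 2 + 1 + τ k * I + ε))
        (hC'.mono fun ε h => h.1) (by
          filter_upwards [(path_tendsto' ((w : ℂ) / 2 + 1 + τ k * I)).eventually (hΛ k hk).2,
            self_mem_nhdsWithin] with ε h1 h2
          have hε : (0 : ℝ) < ε := h2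
          exact h1 (by
            rw [Complex.add_re, hre, Complex.ofReal_re]
            linarith))
      exact ⟨m, fun _ => ⟨h1, h2⟩⟩
    · exact ⟨0, fun h => absurd h hk⟩
  choose m hm using hex
  refine ⟨m, fun k hk => (hm k hk).1, ?_⟩
  have hlim : Tendsto (fun ε : ℝ => ∑ k ∈ T,
      (Real.log ‖LM α (d k) (S k) (B k) ((w : ℂ) / 2 + 1 + τ k * I + ε)‖ /
        Real.log (1 / ε)) ^ 2) (𝓝[>] 0) (𝓝 (∑ k ∈ T, (-(m k : ℝ)) ^ 2)) :=
    tendsto_finsetSum T fun k hk => (hm k hk).2.pow 2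
  have hle : ∀ η : ℝ, 0 < η → ∑ k ∈ T, (-(m k : ℝ)) ^ 2 ≤ (n : ℝ) ^ 2 + η :=
    fun η hη => le_of_tendsto hlim (hmean η hη)
  have hle2 := le_of_forall_pos_le_add hle
  have e1 : ((∑ k ∈ T, (m k) ^ 2 : ℤ) : ℝ) = ∑ k ∈ T, (-(m k : ℝ)) ^ 2 := by
    push_cast
    refine Finset.sum_congr rfl fun k _ => ?_
    ring
  rw [← e1] at hle2
  exact_mod_cast hle2

end Pool.Agent.H126U.Mot
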