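import Pool.Agent.H341R2.NF.Orth

/-! Natural density of prime ideals: quadratic characters have mean value zero. -/

set_option autoImplicit false

namespace Pool.Agent.H126U

open Filter Topology NumberField IsDedekindDomain Pool.Agent.H341R2
open Pool.Agent.H921R2.TatePole (nm two_le_nm below deg R hc
  R_eq_hc R_le kerPrime kerPrime_bijective nm_eq below_le_nm card_above)

section
variable (K : Type) [Field K] [NumberField K]

theorem finite_nm (X : ℕ) : {v : HeightOneSpectrum (𝓞 K) | nm v ≤ X}.Finite := by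
  have h := Ideal.finite_setOfPred_absNorm_le (S := 𝓞 K) X
  refine (h.preimage (f := fun v : HeightOneSpectrum (𝓞 K) => v.asIdeal) ?_).subset ?_
  · intro a _ b _ hab
    exact HeightOneSpectrum.ext hab
  · intro v hv
    exact hv

/-- prime ideals of norm at most `X` -/
noncomputable def VX (X : ℕ) : Finset (HeightOneSpectrum (𝓞 K)) := (finite_nm K X).toFinset

theorem mem_VX {X : ℕ} {v : HeightOneSpectrum (𝓞 K)} : v ∈ VX K X ↔ nm v ≤ X := by
  unfold VX
  rw [Set.Finite.mem_toFinset]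
  rfl

end

/-- primes up to `X` -/
def PX (X : ℕ) : Finset Nat.Primes := (Finset.range (X + 1)).subtype Nat.Prime

theorem mem_PX {X : ℕ} {p : Nat.Primes} : p ∈ PX X ↔ (p : ℕ) ≤ X := by
  constructor
  · intro h
    exact Nat.lt_succ_iff.1 (Finset.mem_range.1 (Finset.mem_subtype.1 h))
  · intro h
    exact Finset.mem_subtype.2 (Finset.mem_range.2 (Nat.lt_succ_iff.2 h))

theorem sum_PX (X : ℕ) (f : ℕ → ℝ) :
    ∑ p ∈ PX X, f (p : ℕ) = ∑ p ∈ (Finset.range (X + 1)).filter Nat.Prime, f p := by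
  unfold PX
  exact Finset.sum_subtype_eq_sum_filter f

theorem card_PX (X : ℕ) : (PX X).card = Nat.primeCounting X := by
  have h := sum_PX X (fun _ => 1)
  rw [Finset.sum_const, Finset.sum_const, nsmul_eq_mul, nsmul_eq_mul, mul_one, mul_one] at h
  have h2 : (PX X).card = ((Finset.range (X + 1)).filter Nat.Prime).card := by exact_mod_cast h
  rw [h2, Nat.primeCounting, Nat.primeCounting', Nat.count_eq_card_filter_range]

section
variable {K : Type} [Field K] [NumberField K]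

theorem deg_pos (v : HeightOneSpectrum (𝓞 K)) : 1 ≤ deg v := (nm_eq v).2.1

/-- passing to primes of degree one -/
theorem sum_low (g : HeightOneSpectrum (𝓞 K) → ℝ) {C : ℝ} (hg : ∀ v, |g v| ≤ C) (X : ℕ) :
    |∑ v ∈ VX K X, g v - ∑ p ∈ PX X, low g p| ≤
      Module.finrank ℚ K * (Nat.sqrt X + 1) * C := by
  classical
  have hC : 0 ≤ C := by
    by_contra h
    push Not at h
    obtain ⟨v⟩ := (sysK K).nonempty
    exact absurd ((abs_nonneg _).trans (hg v)) (not_le.2 h)
  have h1 : ∑ v ∈ (VX K X).filter (fun v => deg v = 1), g v = ∑ p ∈ PX X, low g p := by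
    have hmaps : ∀ v ∈ (VX K X).filter (fun v => deg v = 1), below v ∈ PX X := by
      intro v hv
      rw [Finset.mem_filter, mem_VX] at hv
      rw [mem_PX]
      exact (below_le_nm v).trans hv.1
    rw [← Finset.sum_fiberwise_of_maps_to hmaps]
    refine Finset.sum_congr rfl fun p hp => ?_
    rw [mem_PX] at hp
    unfold low
    rw [← Finset.sum_filter]
    refine Finset.sum_bij' (fun v hv => ⟨v, (Finset.mem_filter.1 hv).2⟩) (fun v _ => v.1)
      ?_ ?_ ?_ ?_ ?_
    · intro v hv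
      rw [Finset.mem_filter, Finset.mem_filter] at hv
      rw [Finset.mem_filter]
      exact ⟨Finset.mem_univ _, hv.1.2⟩
    · intro v hv
      rw [Finset.mem_filter] at hv
      rw [Finset.mem_filter, Finset.mem_filter, mem_VX]
      refine ⟨⟨?_, hv.2⟩, v.2⟩
      have h2 := (nm_eq v.1).1
      rw [hv.2, pow_one, v.2] at h2
      rw [h2]
      exact hp
    · intro v hv
      rfl
    · intro v hv
      rfl
    · intro v hv
      rfl
  have h2 : ∑ v ∈ VX K X, g v = ∑ v ∈ (VX K X).filter (fun v => deg v = 1), g v +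
      ∑ v ∈ (VX K X).filter (fun v => ¬ deg v = 1), g v :=
    (Finset.sum_filter_add_sum_filter_not _ _ _).symm
  rw [h2, h1, add_sub_cancel_left]
  refine (Finset.abs_sum_le_sum_abs _ _).trans ((Finset.sum_le_card_nsmul _ _ C
    fun v _ => hg v).trans ?_)
  rw [nsmul_eq_mul]
  refine mul_le_mul_of_nonneg_right ?_ hC
  have h3 : ((VX K X).filter (fun v => ¬ deg v = 1)).card ≤
      Module.finrank ℚ K * (PX (Nat.sqrt X)).card := by
    have hmaps : ∀ v ∈ (VX K X).filter (fun v => ¬ deg v = 1), below v ∈ PX (Nat.sqrt X) := by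
      intro v hv
      rw [Finset.mem_filter, mem_VX] at hv
      rw [mem_PX, Nat.le_sqrt']
      have h4 := (nm_eq v).1
      have h5 := deg_pos v
      have h6 : 2 ≤ deg v := by
        have := hv.2
        omega
      calc (below v : ℕ) ^ 2 ≤ (below v : ℕ) ^ deg v :=
            Nat.pow_le_pow_right (below v).2.pos h6
        _ = nm v := h4.symm
        _ ≤ X := hv.1
    refine Finset.card_le_mul_card_image_of_maps_to hmaps _ fun p _ => ?_
    exact card_above p _ fun v hv => (Finset.mem_filter.1 hv).2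
  have h7 : (PX (Nat.sqrt X)).card ≤ Nat.sqrt X + 1 := by
    have h8 := Finset.card_le_card_of_injOn (s := PX (Nat.sqrt X))
      (t := Finset.range (Nat.sqrt X + 1)) (fun p : Nat.Primes => (p : ℕ)) (by
        intro p hp
        have h9 : (p : ℕ) ≤ Nat.sqrt X := mem_PX.1 hp
        exact Finset.mem_coe.2 (Finset.mem_range.2 (Nat.lt_succ_of_le h9)))
      (fun a _ b _ h => Subtype.ext h)
    rwa [Finset.card_range] at h8
  calc (((VX K X).filter (fun v => ¬ deg v = 1)).card : ℝ)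
      ≤ ((Module.finrank ℚ K * (PX (Nat.sqrt X)).card : ℕ) : ℝ) := by exact_mod_cast h3
    _ = Module.finrank ℚ K * ((PX (Nat.sqrt X)).card : ℝ) := by push_cast; rfl
    _ ≤ Module.finrank ℚ K * (Nat.sqrt X + 1) := by
        refine mul_le_mul_of_nonneg_left ?_ (Nat.cast_nonneg _)
        exact_mod_cast h7

end

theorem pi_lower : ∀ᶠ X : ℕ in atTop, (X : ℝ) ^ (3 / 4 : ℝ) / 4 ≤ (Nat.primeCounting X : ℝ) := by
  have h1 : ∀ᶠ x : ℝ in atTop, Real.log x ≤ x ^ (1 / 4 : ℝ) := by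
    have h := (isLittleO_log_rpow_atTop (r := 1 / 4) (by norm_num)).bound (c := 1) one_pos
    filter_upwards [h, eventually_ge_atTop 1] with x hx hx1
    rw [one_mul, Real.norm_of_nonneg (Real.log_nonneg hx1), Real.norm_of_nonneg (by positivity)]
      at hx
    exact hx
  have h2 : ∀ᶠ x : ℝ in atTop, Real.log (x + 1) ≤ x / 4 := by
    have h := (Real.isLittleO_log_id_atTop).bound (c := 1 / 8) (by norm_num)
    have h' := (tendsto_atTop_add_const_right atTop (1 : ℝ) tendsto_id).eventually h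
    filter_upwards [h', eventually_ge_atTop 1] with x hx hx1
    simp only [id_eq] at hx
    rw [Real.norm_of_nonneg (Real.log_nonneg (by linarith)), Real.norm_of_nonneg (by linarith)]
      at hx
    linarith
  filter_upwards [tendsto_natCast_atTop_atTop.eventually h1,
    tendsto_natCast_atTop_atTop.eventually h2, eventually_ge_atTop 2] with X h3 h4 h5
  have hX : (2 : ℝ) ≤ X := by exact_mod_cast h5
  have hX0 : (0 : ℝ) < X := by linarith
  have hlog : 0 < Real.log X := Real.log_pos (by linarith)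
  refine le_trans ?_ (Chebyshev.pi_ge X)
  rw [le_div_iff₀ hlog]
  have hl2 : (0.69 : ℝ) < Real.log 2 := by
    have := Real.log_two_gt_d9
    linarith
  have h6 : (X : ℝ) ^ (3 / 4 : ℝ) / 4 * Real.log X ≤ (X : ℝ) / 4 := by
    calc (X : ℝ) ^ (3 / 4 : ℝ) / 4 * Real.log X
        ≤ (X : ℝ) ^ (3 / 4 : ℝ) / 4 * (X : ℝ) ^ (1 / 4 : ℝ) :=
          mul_le_mul_of_nonneg_left h3 (by positivity)
      _ = ((X : ℝ) ^ (3 / 4 : ℝ) * (X : ℝ) ^ (1 / 4 : ℝ)) / 4 := by ring
      _ = (X : ℝ) / 4 := by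
          rw [← Real.rpow_add hX0]
          norm_num
  nlinarith

theorem sqrt_small (c : ℝ) :
    Tendsto (fun X : ℕ => c * ((Nat.sqrt X : ℝ) + 1) / (Nat.primeCounting X : ℝ)) atTop (𝓝 0) := by
  have h0 : Tendsto (fun X : ℕ => |c| * (8 * (X : ℝ) ^ (-(1 / 4) : ℝ))) atTop (𝓝 0) := by
    have h1 := (tendsto_rpow_neg_atTop (y := 1 / 4) (by norm_num)).comp
      (tendsto_natCast_atTop_atTop (R := ℝ))
    have h2 := (h1.const_mul 8).const_mul |c|
    simpa using h2
  refine squeeze_zero_norm' ?_ h0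
  filter_upwards [pi_lower, eventually_ge_atTop 1] with X h1 h2
  have hX : (1 : ℝ) ≤ X := by exact_mod_cast h2
  have hX0 : (0 : ℝ) < X := by linarith
  have hpos : (0 : ℝ) < (X : ℝ) ^ (3 / 4 : ℝ) / 4 := by positivity
  have hpi : (0 : ℝ) < Nat.primeCounting X := lt_of_lt_of_le hpos h1
  rw [Real.norm_eq_abs, abs_div, abs_mul, abs_of_pos hpi, mul_div_assoc]
  refine mul_le_mul_of_nonneg_left ?_ (abs_nonneg _)
  have h3 : (Nat.sqrt X : ℝ) ≤ (X : ℝ) ^ (1 / 2 : ℝ) := by
    rw [← Real.sqrt_eq_rpow]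
    exact Real.nat_sqrt_le_real_sqrt
  have h4 : (1 : ℝ) ≤ (X : ℝ) ^ (1 / 2 : ℝ) := Real.one_le_rpow hX (by norm_num)
  rw [abs_of_nonneg (by positivity), div_le_iff₀ hpi]
  have h5 : 8 * (X : ℝ) ^ (-(1 / 4) : ℝ) * ((X : ℝ) ^ (3 / 4 : ℝ) / 4) =
      2 * (X : ℝ) ^ (1 / 2 : ℝ) := by
    have : (X : ℝ) ^ (-(1 / 4) : ℝ) * (X : ℝ) ^ (3 / 4 : ℝ) = (X : ℝ) ^ (1 / 2 : ℝ) := by
      rw [← Real.rpow_add hX0]
      norm_num
    linear_combination 2 * this
  calc (Nat.sqrt X : ℝ) + 1 ≤ 2 * (X : ℝ) ^ (1 / 2 : ℝ) := by linarith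
    _ = 8 * (X : ℝ) ^ (-(1 / 4) : ℝ) * ((X : ℝ) ^ (3 / 4 : ℝ) / 4) := h5.symm
    _ ≤ 8 * (X : ℝ) ^ (-(1 / 4) : ℝ) * Nat.primeCounting X :=
        mul_le_mul_of_nonneg_left h1 (by positivity)

section
variable (K : Type) [Field K] [NumberField K]

theorem pit' : Tendsto (fun X : ℕ => (∑ p ∈ PX X, (hc (𝓞 K) (p : ℕ) : ℝ)) /
    (Nat.primeCounting X : ℝ)) atTop (𝓝 1) := by
  have h := Pool.Agent.H484R2.pit K
  refine h.congr fun X => ?_
  rw [← sum_PX]
  rfl

end

section
variable {K : Type} [Field K] [NumberField K]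

/-- if two functions differ by a bounded amount on finitely many primes -/
theorem card_VX : Tendsto (fun X : ℕ => ((VX K X).card : ℝ) / (Nat.primeCounting X : ℝ)) atTop
    (𝓝 1) := by
  have h1 := pit' K
  have h2 := sqrt_small (Module.finrank ℚ K : ℝ)
  have h3 : Tendsto (fun X : ℕ => ((VX K X).card : ℝ) / (Nat.primeCounting X : ℝ) -
      (∑ p ∈ PX X, (hc (𝓞 K) (p : ℕ) : ℝ)) / (Nat.primeCounting X : ℝ)) atTop (𝓝 0) := by
    refine squeeze_zero_norm (fun X => ?_) h2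
    have h4 := sum_low (K := K) (fun _ => 1) (C := 1) (fun v => by simp) X
    have h5 : ∀ p : Nat.Primes, low (K := K) (fun _ => 1) p = (hc (𝓞 K) (p : ℕ) : ℝ) := by
      intro p
      have : Fact (p : ℕ).Prime := ⟨p.2⟩
      have hfin : Finite (𝓞 K →+* ZMod (p : ℕ)) := Pool.Agent.H921R2.TatePole.hom_finite p
      let _ : Fintype (𝓞 K →+* ZMod (p : ℕ)) := Fintype.ofFinite _
      rw [low_eq]
      unfold hc
      rw [Finset.sum_const, nsmul_eq_mul, mul_one, Finset.card_univ, Nat.card_eq_fintype_card]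
    rw [Finset.sum_congr rfl fun p _ => h5 p] at h4
    have hpi0 : |(Nat.primeCounting X : ℝ)| = Nat.primeCounting X :=
      abs_of_nonneg (Nat.cast_nonneg _)
    rw [← sub_div, Real.norm_eq_abs, abs_div, hpi0]
    refine div_le_div_of_nonneg_right ?_ (Nat.cast_nonneg _)
    rw [mul_one] at h4
    simpa using h4
  have h6 := h3.add h1
  rw [zero_add] at h6
  refine h6.congr fun X => ?_
  ring

/-- quadratic characters have mean value zero -/
theorem chi_mean {d : 𝓞 K} (hd : d ≠ 0) (hsq : ¬ IsSquare (d : K)) :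
    Tendsto (fun X : ℕ => (∑ v ∈ VX K X, (chi d v : ℝ)) / (Nat.primeCounting X : ℝ)) atTop
      (𝓝 0) := by
  classical
  have : Fact (Irreducible (qpoly d)) := ⟨qpoly_irreducible hsq⟩
  have h1 := pit' K
  have h1' := pit' (QF d)
  have h2 := sqrt_small (Module.finrank ℚ K : ℝ)
  have hlowb : ∀ p, |low (K := K) (fun v => (chi d v : ℝ)) p| ≤ Module.finrank ℚ K := by
    intro p
    have : Fact (p : ℕ).Prime := ⟨p.2⟩
    have hfin : Finite (𝓞 K →+* ZMod (p : ℕ)) := Pool.Agent.H921R2.TatePole.hom_finite p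
    let _ : Fintype (𝓞 K →+* ZMod (p : ℕ)) := Fintype.ofFinite _
    rw [low_eq]
    refine (Finset.abs_sum_le_sum_abs _ _).trans ?_
    refine (Finset.sum_le_sum fun φ _ => chi_abs _ _).trans ?_
    rw [Finset.sum_const, nsmul_eq_mul, mul_one, Finset.card_univ, ← Nat.card_eq_fintype_card]
    have := R_le (K := K) p
    rw [R_eq_hc] at this
    exact_mod_cast this
  have hlow : ∀ p : Nat.Primes, ¬ ((p : ℕ) : ℤ) ∣ N0 d → low (K := K) (fun v => (chi d v : ℝ)) p =
      (hc (𝓞 (QF d)) (p : ℕ) : ℝ) - (hc (𝓞 K) (p : ℕ) : ℝ) := by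
    intro p hp
    have : Fact (p : ℕ).Prime := ⟨p.2⟩
    have hfin : Finite (𝓞 K →+* ZMod (p : ℕ)) := Pool.Agent.H921R2.TatePole.hom_finite p
    let _ : Fintype (𝓞 K →+* ZMod (p : ℕ)) := Fintype.ofFinite _
    rw [low_eq]
    have h4 : ∀ φ : 𝓞 K →+* ZMod (p : ℕ), ((chi d (kerPrime p φ).1.1 : ℤ) : ℝ) =
        (quadraticChar (ZMod (p : ℕ)) (φ d) : ℝ) := by
      intro φ
      rw [chi_kerPrime]
    rw [Finset.sum_congr rfl fun φ _ => h4 φ]
    have h5 := hc_quad (d := d) (p := p) hp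
    rw [Finset.sum_add_distrib, Finset.sum_const, Finset.card_univ, ← Nat.card_eq_fintype_card]
      at h5
    have h11 : ((hc (𝓞 (QF d)) (p : ℕ) : ℤ) : ℝ) = ((∑ φ : 𝓞 K →+* ZMod (p : ℕ),
        quadraticChar (ZMod (p : ℕ)) (φ d) + Nat.card (𝓞 K →+* ZMod (p : ℕ)) • (1 : ℤ) : ℤ) : ℝ) := by
      exact_mod_cast h5
    push_cast at h11
    rw [h11]
    unfold hc
    simp
  -- the finitely many exceptional primes
  have hfin : {p : Nat.Primes | ((p : ℕ) : ℤ) ∣ N0 d}.Finite := by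
    have h1 : ((N0 d).natAbs.primeFactors : Set ℕ).Finite := Finset.finite_toSet _
    refine (h1.preimage (f := fun p : Nat.Primes => (p : ℕ)) ?_).subset ?_
    · exact fun a _ b _ h => Subtype.ext h
    · intro p hp
      simp only [Set.mem_preimage, Finset.mem_coe, Nat.mem_primeFactors]
      refine ⟨p.2, ?_, Int.natAbs_ne_zero.2 (N0_ne_zero hd)⟩
      exact Int.natCast_dvd.1 hp
  obtain ⟨C, hC⟩ : ∃ C : ℝ, ∀ X : ℕ, |∑ p ∈ PX X, low (K := K) (fun v => (chi d v : ℝ)) p -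
      (∑ p ∈ PX X, (hc (𝓞 (QF d)) (p : ℕ) : ℝ) - ∑ p ∈ PX X, (hc (𝓞 K) (p : ℕ) : ℝ))| ≤ C := by
    refine ⟨∑ p ∈ hfin.toFinset, |low (K := K) (fun v => (chi d v : ℝ)) p -
      ((hc (𝓞 (QF d)) (p : ℕ) : ℝ) - (hc (𝓞 K) (p : ℕ) : ℝ))|, fun X => ?_⟩
    rw [← Finset.sum_sub_distrib, ← Finset.sum_sub_distrib]
    refine (Finset.abs_sum_le_sum_abs _ _).trans ?_
    rw [← Finset.sum_filter_add_sum_filter_not (PX X) (fun p : Nat.Primes => ((p : ℕ) : ℤ) ∣ N0 d)]
    have h0 : ∑ p ∈ (PX X).filter (fun p : Nat.Primes => ¬ ((p : ℕ) : ℤ) ∣ N0 d),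
        |low (K := K) (fun v => (chi d v : ℝ)) p -
          ((hc (𝓞 (QF d)) (p : ℕ) : ℝ) - (hc (𝓞 K) (p : ℕ) : ℝ))| = 0 := by
      refine Finset.sum_eq_zero fun p hp => ?_
      rw [hlow p (Finset.mem_filter.1 hp).2, sub_self, abs_zero]
    rw [h0, add_zero]
    refine Finset.sum_le_sum_of_subset_of_nonneg ?_ fun _ _ _ => abs_nonneg _
    intro p hp
    rw [Set.Finite.mem_toFinset]
    exact (Finset.mem_filter.1 hp).2
  have hpi : Tendsto (fun X : ℕ => (Nat.primeCounting X : ℝ)) atTop atTop :=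
    tendsto_natCast_atTop_atTop.comp Nat.tendsto_primeCounting
  have h3 : Tendsto (fun X : ℕ => (∑ v ∈ VX K X, (chi d v : ℝ)) / (Nat.primeCounting X : ℝ) -
      ((∑ p ∈ PX X, (hc (𝓞 (QF d)) (p : ℕ) : ℝ)) / (Nat.primeCounting X : ℝ) -
        (∑ p ∈ PX X, (hc (𝓞 K) (p : ℕ) : ℝ)) / (Nat.primeCounting X : ℝ))) atTop (𝓝 0) := by
    have h7 := h2.add (tendsto_const_nhds.div_atTop hpi : Tendsto (fun X : ℕ => C /
      (Nat.primeCounting X : ℝ)) atTop (𝓝 0))
    rw [zero_add] at h7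
    refine squeeze_zero_norm (fun X => ?_) h7
    have h4 := sum_low (K := K) (fun v => (chi d v : ℝ)) (C := 1) (fun v => chi_abs d v) X
    have hpi0 : |(Nat.primeCounting X : ℝ)| = Nat.primeCounting X :=
      abs_of_nonneg (Nat.cast_nonneg _)
    rw [← sub_div, ← sub_div, ← add_div, Real.norm_eq_abs, abs_div, hpi0]
    refine div_le_div_of_nonneg_right ?_ (Nat.cast_nonneg _)
    rw [mul_one] at h4
    have h8 := hC X
    have e : ∀ a b c : ℝ, a - c = (a - b) + (b - c) := fun a b c => by ring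
    rw [e _ (∑ p ∈ PX X, low (K := K) (fun v => (chi d v : ℝ)) p)]
    exact (abs_add_le _ _).trans (add_le_add h4 h8)
  have h6 := h3.add (h1'.sub h1)
  rw [zero_add, sub_self] at h6
  refine h6.congr fun X => ?_
  ring

end

end Pool.Agent.H126U
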