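import Pool.Agent.H126T.Main

/-! The traces of all powers of Frobenius of a quadratic twist. -/

set_option autoImplicit false

namespace Pool.Agent.H126U

open Polynomial Pool.Agent.H126T Pool.Agent.H341R2

section
variable {k : Type} [Field k] [Fintype k] [DecidableEq k]

theorem quadChar_ext (hk : ringChar k ≠ 2) (E : Type) [Field E] [Fintype E] [DecidableEq E]
    [Algebra k E] (m : ℕ) (hE : Fintype.card E = Fintype.card k ^ m) (d : k) (hd : d ≠ 0) :
    quadraticChar E (algebraMap k E d) = quadraticChar k d ^ m := by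
  have hE2 : ringChar E ≠ 2 := by rwa [← Algebra.ringChar_eq k E]
  have hinj : Function.Injective (Int.cast : ℤ → ℚ) := Int.cast_injective
  have hd' : algebraMap k E d ≠ 0 := by
    rwa [Ne, FaithfulSMul.algebraMap_eq_zero_iff]
  have hodd : Fintype.card k % 2 = 1 := FiniteField.odd_card_of_char_ne_two hk
  -- the exponents
  obtain ⟨c, hc⟩ : ∃ c : ℕ, Fintype.card k = 2 * c + 1 := ⟨Fintype.card k / 2, by omega⟩
  have hexp : ∃ t : ℕ, Fintype.card E / 2 = c * t ∧ (t % 2 = m % 2) := by
    rw [hE]
    refine ⟨∑ i ∈ Finset.range m, Fintype.card k ^ i, ?_, ?_⟩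
    · have h1 : (∑ i ∈ Finset.range m, Fintype.card k ^ i) * (2 * c) + 1 = Fintype.card k ^ m := by
        have := geom_sum_mul_add (2 * c) m
        rw [hc]
        exact this
      have h2 : Fintype.card k ^ m = 2 * (c * ∑ i ∈ Finset.range m, Fintype.card k ^ i) + 1 := by
        rw [← h1]
        ring
      omega
    · have h3 : ∀ n : ℕ, (∑ i ∈ Finset.range n, Fintype.card k ^ i) % 2 = n % 2 := by
        intro n
        induction n with
        | zero => rfl
        | succ n ih =>
          rw [Finset.sum_range_succ]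
          have h4 : Fintype.card k ^ n % 2 = 1 := by
            rw [Nat.pow_mod, hodd, one_pow]
            rfl
          omega
      exact h3 m
  obtain ⟨t, ht1, ht2⟩ := hexp
  have h5 : ((quadraticChar E (algebraMap k E d) : ℤ) : E) =
      ((quadraticChar k d ^ m : ℤ) : E) := by
    rw [quadraticChar_eq_pow_of_char_ne_two' hE2, ht1, pow_mul]
    have h6 : (algebraMap k E d) ^ c = ((quadraticChar k d : ℤ) : E) := by
      have h7 := quadraticChar_eq_pow_of_char_ne_two' hk d
      have h8 : Fintype.card k / 2 = c := by omega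
      rw [h8] at h7
      rw [← map_pow, ← h7, map_intCast]
    rw [h6]
    push_cast
    rcases quadraticChar_dichotomy hd with h | h
    · rw [h]; simp
    · rw [h]
      push_cast
      rw [← Nat.div_add_mod t 2, ← Nat.div_add_mod m 2, ht2, pow_add, pow_add, pow_mul, pow_mul]
      simp
  have hne : (2 : E) ≠ 0 := by
    intro h0
    apply hE2
    have : ringChar E ∣ 2 := ringChar.dvd (by exact_mod_cast h0)
    rcases (Nat.dvd_prime Nat.prime_two).1 this with h | h
    · exact absurd h (CharP.ringChar_ne_one)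
    · exact h
  have h9 : (1 : E) ≠ -1 := by
    intro h0
    apply hne
    have : (1 : E) + 1 = 0 := by
      nth_rewrite 2 [h0]
      ring
    rw [← this]
    norm_num
  rcases quadraticChar_dichotomy hd' with h | h
  · rcases quadraticChar_dichotomy hd with h' | h'
    · rw [h, h', one_pow]
    · rw [h, h'] at h5 ⊢
      rcases Nat.even_or_odd m with hm | hm
      · rw [hm.neg_one_pow]
      · rw [hm.neg_one_pow] at h5
        exact absurd (by exact_mod_cast h5) h9
  · rcases quadraticChar_dichotomy hd with h' | h'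
    · rw [h, h', one_pow] at h5
      exact absurd (by exact_mod_cast h5.symm) h9
    · rw [h, h'] at h5 ⊢
      rcases Nat.even_or_odd m with hm | hm
      · rw [hm.neg_one_pow] at h5
        exact absurd (by exact_mod_cast h5.symm) h9
      · rw [hm.neg_one_pow]

/-- the trace of a quadratic twist -/
theorem trace_twist (hk : ringChar k ≠ 2) (f : k[X]) (d : k) (hd : d ≠ 0)
    (m : ℕ) (hm : m ≠ 0) :
    ((Nat.card k : ℤ) ^ m + 1 - (affPts k f d m + 1)) =
      quadraticChar k d ^ m * ((Nat.card k : ℤ) ^ m + 1 - (affPts k f 1 m + 1)) := by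
  classical
  obtain ⟨E, i1, i2, i3, hE⟩ := exists_ext (k := k) m hm
  let _ := Fintype.ofFinite E
  rw [affPts_eq f d m E hE, affPts_eq f 1 m E hE]
  have hE2 : ringChar E ≠ 2 := by rwa [← Algebra.ringChar_eq k E]
  set g : E[X] := f.map (algebraMap k E) with hg
  have hd' : algebraMap k E d ≠ 0 := by
    rwa [Ne, FaithfulSMul.algebraMap_eq_zero_iff]
  have hset : ∀ c : k, {P : E × E // algebraMap k E c * P.2 ^ 2 = aeval P.1 f} =
      {P : E × E // algebraMap k E c * P.2 ^ 2 = g.eval P.1} := by
    intro c
    congr 1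
    funext P
    rw [hg, eval_map, aeval_def]
  have h1' : algebraMap k E 1 ≠ 0 := by rw [map_one]; exact one_ne_zero
  rw [hset, hset, card_aff hE2 g _ hd', card_aff hE2 g _ h1', ← Nat.card_eq_fintype_card, hE]
  have hE' : Fintype.card E = Fintype.card k ^ m := by
    rw [← Nat.card_eq_fintype_card, ← Nat.card_eq_fintype_card, hE]
  rw [quadChar_ext hk E m hE' d hd, map_one, map_one]
  push_cast
  ring

end

section
variable {K : Type} [Field K] [NumberField K]

open NumberField IsDedekindDomain Pool.Agent.H341R2.EC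
open Pool.Agent.H921R2.TatePole (nm two_le_nm)

theorem traceH1_twist {v : HeightOneSpectrum (𝓞 K)} {f : (𝓞 K)[X]}
    {d : 𝓞 K} (h2 : (2 : 𝓞 K) ∉ v.asIdeal) (hd : d ∉ v.asIdeal) (m : ℕ) (hm : m ≠ 0) :
    H126T.traceH1 v f d m = chi d v ^ m * H126T.traceH1 v f 1 m := by
  have h := trace_twist (char_v h2) (f.map (Ideal.Quotient.mk v.asIdeal))
    (Ideal.Quotient.mk v.asIdeal d) (mk_ne hd) m hm
  unfold H126T.traceH1
  rw [map_one]
  exact h

end

end Pool.Agent.H126U
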