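import Pool.Agent.H126U.Nat1
import Pool.Agent.H126U.Twist
import Pool.Agent.H126U.Main

/-! Sato–Tate averages over families of quadratic twists. -/

set_option autoImplicit false

namespace Pool.Agent.H126U.ST

open Filter Topology NumberField IsDedekindDomain Pool.Agent.H341R2 Pool.Agent.H341R2.EC
open Pool.Agent.H921R2.TatePole (nm two_le_nm)
open Pool.Agent.H126U Polynomial

/-! ### Fourier analysis on the group of signs -/

section fourier
variable {r : ℕ}

/-- the sign `∏_{j ∈ A} s j` -/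
def sg (s : Fin r → ℤˣ) (A : Finset (Fin r)) : ℝ := ∏ j ∈ A, ((s j : ℤ) : ℝ)

/-- Fourier coefficients -/
noncomputable def ft (g : (Fin r → ℤˣ) → ℝ) (A : Finset (Fin r)) : ℝ :=
  (1 / 2 ^ r : ℝ) * ∑ s, sg s A * g s

theorem sum_sg (s s0 : Fin r → ℤˣ) :
    ∑ A : Finset (Fin r), sg s0 A * sg s A = if s = s0 then (2 : ℝ) ^ r else 0 := by
  have h1 : ∑ A : Finset (Fin r), sg s0 A * sg s A =
      ∏ j : Fin r, (1 + ((s0 j : ℤ) : ℝ) * ((s j : ℤ) : ℝ)) := by
    rw [Finset.prod_one_add, Finset.powerset_univ]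
    refine Finset.sum_congr rfl fun A _ => ?_
    unfold sg
    rw [Finset.prod_mul_distrib]
  rw [h1]
  split_ifs with h
  · subst h
    have h2 : ∀ j : Fin r, (1 + ((s j : ℤ) : ℝ) * ((s j : ℤ) : ℝ)) = 2 := by
      intro j
      rcases Int.units_eq_one_or (s j) with h | h <;> rw [h] <;> norm_num
    rw [Finset.prod_congr rfl fun j _ => h2 j, Finset.prod_const, Finset.card_univ,
      Fintype.card_fin]
  · obtain ⟨j, hj⟩ : ∃ j, s j ≠ s0 j := by
      by_contra h3
      push Not at h3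
      exact h (funext h3)
    refine Finset.prod_eq_zero (Finset.mem_univ j) ?_
    rcases Int.units_eq_one_or (s j) with h3 | h3 <;>
      rcases Int.units_eq_one_or (s0 j) with h4 | h4
    · exact absurd (h3.trans h4.symm) hj
    · rw [h3, h4]; norm_num
    · rw [h3, h4]; norm_num
    · exact absurd (h3.trans h4.symm) hj

theorem ft_inv (g : (Fin r → ℤˣ) → ℝ) (s0 : Fin r → ℤˣ) :
    g s0 = ∑ A : Finset (Fin r), sg s0 A * ft g A := by
  have h1 : ∑ A : Finset (Fin r), sg s0 A * ft g A =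
      (1 / 2 ^ r : ℝ) * ∑ s, g s * ∑ A : Finset (Fin r), sg s0 A * sg s A := by
    unfold ft
    have : ∀ A : Finset (Fin r), sg s0 A * ((1 / 2 ^ r : ℝ) * ∑ s, sg s A * g s) =
        (1 / 2 ^ r : ℝ) * ∑ s, g s * (sg s0 A * sg s A) := by
      intro A
      rw [← mul_assoc, mul_comm (sg s0 A), mul_assoc, Finset.mul_sum]
      congr 1
      refine Finset.sum_congr rfl fun s _ => ?_
      ring
    rw [Finset.sum_congr rfl fun A _ => this A, ← Finset.mul_sum, Finset.sum_comm]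
    congr 1
    refine Finset.sum_congr rfl fun s _ => ?_
    rw [Finset.mul_sum]
  rw [h1]
  simp only [sum_sg]
  rw [Finset.sum_eq_single s0]
  · rw [if_pos rfl]
    field_simp
  · intro s _ hs
    rw [if_neg hs, mul_zero]
  · intro h
    exact absurd (Finset.mem_univ _) h

theorem parseval (g : (Fin r → ℤˣ) → ℝ) :
    ∑ A : Finset (Fin r), ft g A ^ 2 = (1 / 2 ^ r : ℝ) * ∑ s, g s ^ 2 := by
  have h1 : ∑ A : Finset (Fin r), ft g A ^ 2 =
      (1 / 2 ^ r : ℝ) * ∑ s, g s * ∑ A : Finset (Fin r), sg s A * ft g A := by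
    have : ∀ A : Finset (Fin r), ft g A ^ 2 =
        (1 / 2 ^ r : ℝ) * ∑ s, g s * (sg s A * ft g A) := by
      intro A
      rw [sq]
      nth_rewrite 1 [ft]
      rw [mul_assoc, Finset.sum_mul]
      congr 1
      refine Finset.sum_congr rfl fun s _ => ?_
      ring
    rw [Finset.sum_congr rfl fun A _ => this A, ← Finset.mul_sum, Finset.sum_comm]
    congr 1
    refine Finset.sum_congr rfl fun s _ => ?_
    rw [Finset.mul_sum]
  rw [h1]
  congr 1
  refine Finset.sum_congr rfl fun s _ => ?_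
  rw [← ft_inv g s, sq]

theorem parseval_le (g : (Fin r → ℤˣ) → ℝ) {b : ℝ} (hg : ∀ s, |g s| ≤ b) :
    ∑ A : Finset (Fin r), ft g A ^ 2 ≤ b ^ 2 := by
  rw [parseval]
  have h1 : ∑ s : Fin r → ℤˣ, g s ^ 2 ≤ 2 ^ r * b ^ 2 := by
    have h2 := Finset.sum_le_card_nsmul (Finset.univ : Finset (Fin r → ℤˣ)) (fun s => g s ^ 2)
      (b ^ 2) fun s _ => sq_le_sq' (by linarith [(abs_le.1 (hg s)).1]) (abs_le.1 (hg s)).2
    rw [nsmul_eq_mul, Finset.card_univ, Fintype.card_fun, Fintype.card_fin] at h2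
    have h3 : Fintype.card ℤˣ = 2 := rfl
    rw [h3] at h2
    push_cast at h2
    exact h2
  calc (1 / 2 ^ r : ℝ) * ∑ s, g s ^ 2 ≤ (1 / 2 ^ r : ℝ) * (2 ^ r * b ^ 2) :=
        mul_le_mul_of_nonneg_left h1 (by positivity)
    _ = b ^ 2 := by field_simp

theorem ft_le (g : (Fin r → ℤˣ) → ℝ) {b : ℝ} (hb : 0 ≤ b) (hg : ∀ s, |g s| ≤ b)
    (A : Finset (Fin r)) : |ft g A| ≤ b := by
  have h1 := parseval_le g hg
  have h2 : ft g A ^ 2 ≤ ∑ A : Finset (Fin r), ft g A ^ 2 :=
    Finset.single_le_sum (f := fun A => ft g A ^ 2) (fun _ _ => sq_nonneg _) (Finset.mem_univ A)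
  exact abs_le_of_sq_le_sq (h2.trans h1) hb

end fourier

/-! ### Bessel's inequality for finite averages -/

section bessel

/-- average over a finite set -/
noncomputable def mn {V : Type*} (s : Finset V) (φ : V → ℝ) : ℝ := (∑ v ∈ s, φ v) / s.card

variable {V : Type*} (s : Finset V)

theorem mn_add (φ ψ : V → ℝ) : mn s (fun v => φ v + ψ v) = mn s φ + mn s ψ := by
  unfold mn
  rw [Finset.sum_add_distrib, add_div]

theorem mn_sub (φ ψ : V → ℝ) : mn s (fun v => φ v - ψ v) = mn s φ - mn s ψ := by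
  unfold mn
  rw [Finset.sum_sub_distrib, sub_div]

theorem mn_mul (c : ℝ) (φ : V → ℝ) : mn s (fun v => c * φ v) = c * mn s φ := by
  unfold mn
  rw [← Finset.mul_sum, mul_div_assoc]

theorem mn_sum {J : Type*} (P : Finset J) (φ : J → V → ℝ) :
    mn s (fun v => ∑ j ∈ P, φ j v) = ∑ j ∈ P, mn s (φ j) := by
  unfold mn
  rw [Finset.sum_comm, Finset.sum_div]

theorem mn_nonneg {φ : V → ℝ} (h : ∀ v ∈ s, 0 ≤ φ v) : 0 ≤ mn s φ :=
  div_nonneg (Finset.sum_nonneg h) (Nat.cast_nonneg _)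

theorem mn_congr {φ ψ : V → ℝ} (h : ∀ v ∈ s, φ v = ψ v) : mn s φ = mn s ψ := by
  unfold mn
  rw [Finset.sum_congr rfl h]

theorem mn_le {φ : V → ℝ} {b : ℝ} (hb : 0 ≤ b) (h : ∀ v ∈ s, φ v ≤ b) : mn s φ ≤ b := by
  unfold mn
  rcases s.eq_empty_or_nonempty with h0 | h0
  · rw [h0]
    simpa using hb
  · have h1 : (0 : ℝ) < s.card := by exact_mod_cast h0.card_pos
    rw [div_le_iff₀ h1]
    have := Finset.sum_le_card_nsmul s φ b h
    rw [nsmul_eq_mul] at this
    linarith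

theorem mn_abs_le {φ : V → ℝ} {b : ℝ} (hb : 0 ≤ b) (h : ∀ v ∈ s, |φ v| ≤ b) : |mn s φ| ≤ b := by
  rw [abs_le]
  constructor
  · have h1 := mn_le s hb (φ := fun v => (-1) * φ v) fun v hv => by
      have := (abs_le.1 (h v hv)).1
      linarith
    rw [mn_mul] at h1
    linarith
  · exact mn_le s hb fun v hv => (abs_le.1 (h v hv)).2

theorem bessel {κ : Type*} [DecidableEq κ] (T : Finset κ) (t : V → ℝ) (χ : κ → V → ℝ) {b δ : ℝ}
    (hb : 0 ≤ b) (hδ : 0 ≤ δ) (ht : ∀ v ∈ s, |t v| ≤ b) (hχ : ∀ k, ∀ v ∈ s, |χ k v| ≤ 1)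
    (horth : ∀ k ∈ T, ∀ l ∈ T, k ≠ l → |mn s (fun v => χ k v * χ l v)| ≤ δ) :
    ∑ k ∈ T, mn s (fun v => t v * χ k v) ^ 2 ≤
      mn s (fun v => t v ^ 2) + (T.card : ℝ) ^ 2 * b ^ 2 * δ := by
  set x : κ → ℝ := fun k => mn s (fun v => t v * χ k v) with hx
  have hxb : ∀ k, |x k| ≤ b := by
    intro k
    refine mn_abs_le s hb fun v hv => ?_
    rw [abs_mul]
    calc |t v| * |χ k v| ≤ b * 1 := mul_le_mul (ht v hv) (hχ k v hv) (abs_nonneg _) hb
      _ = b := mul_one _
  have h0 : 0 ≤ mn s (fun v => (t v - ∑ k ∈ T, x k * χ k v) ^ 2) :=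
    mn_nonneg s fun v _ => sq_nonneg _
  have h1 : mn s (fun v => (t v - ∑ k ∈ T, x k * χ k v) ^ 2) =
      mn s (fun v => t v ^ 2) - 2 * ∑ k ∈ T, x k * x k +
        ∑ k ∈ T, ∑ l ∈ T, x k * x l * mn s (fun v => χ k v * χ l v) := by
    have e1 : (fun v => (t v - ∑ k ∈ T, x k * χ k v) ^ 2) = fun v =>
        (t v ^ 2 - 2 * ∑ k ∈ T, x k * (t v * χ k v)) +
          ∑ k ∈ T, ∑ l ∈ T, x k * x l * (χ k v * χ l v) := by
      funext v
      have e2 : (∑ k ∈ T, x k * χ k v) ^ 2 = ∑ k ∈ T, ∑ l ∈ T, x k * x l * (χ k v * χ l v) := by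
        rw [sq, Finset.sum_mul_sum]
        refine Finset.sum_congr rfl fun k _ => Finset.sum_congr rfl fun l _ => ?_
        ring
      have e3 : ∑ k ∈ T, x k * (t v * χ k v) = t v * ∑ k ∈ T, x k * χ k v := by
        rw [Finset.mul_sum]
        refine Finset.sum_congr rfl fun k _ => ?_
        ring
      rw [← e2, e3]
      ring
    have e4 : mn s (fun v => ∑ k ∈ T, x k * (t v * χ k v)) = ∑ k ∈ T, x k * x k := by
      rw [mn_sum]
      refine Finset.sum_congr rfl fun k _ => ?_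
      rw [mn_mul]
    have e5 : mn s (fun v => ∑ k ∈ T, ∑ l ∈ T, x k * x l * (χ k v * χ l v)) =
        ∑ k ∈ T, ∑ l ∈ T, x k * x l * mn s (fun v => χ k v * χ l v) := by
      rw [mn_sum]
      refine Finset.sum_congr rfl fun k _ => ?_
      rw [mn_sum]
      refine Finset.sum_congr rfl fun l _ => ?_
      rw [mn_mul]
    rw [e1, mn_add, mn_sub, mn_mul, e4, e5]
  have h2 : ∑ k ∈ T, ∑ l ∈ T, x k * x l * mn s (fun v => χ k v * χ l v) ≤
      ∑ k ∈ T, x k * x k + (T.card : ℝ) ^ 2 * b ^ 2 * δ := by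
    have h3 : ∀ k ∈ T, ∑ l ∈ T, x k * x l * mn s (fun v => χ k v * χ l v) ≤
        x k * x k + T.card * (b ^ 2 * δ) := by
      intro k hk
      rw [← Finset.add_sum_erase T _ hk]
      refine add_le_add ?_ ?_
      · have h4 : mn s (fun v => χ k v * χ k v) ≤ 1 := mn_le s zero_le_one fun v hv => by
          have := hχ k v hv
          rw [abs_le] at this
          nlinarith
        exact mul_le_of_le_one_right (mul_self_nonneg _) h4
      · have h5 : ∀ l ∈ T.erase k, x k * x l * mn s (fun v => χ k v * χ l v) ≤ b ^ 2 * δ := by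
          intro l hl
          rw [Finset.mem_erase] at hl
          refine (le_abs_self _).trans ?_
          rw [abs_mul, abs_mul, sq]
          exact mul_le_mul (mul_le_mul (hxb k) (hxb l) (abs_nonneg _) hb)
            (horth k hk l hl.2 (Ne.symm hl.1)) (abs_nonneg _) (by positivity)
        refine (Finset.sum_le_card_nsmul _ _ _ h5).trans ?_
        rw [nsmul_eq_mul]
        refine mul_le_mul_of_nonneg_right ?_ (by positivity)
        exact_mod_cast Finset.card_le_card (Finset.erase_subset k T)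
    refine (Finset.sum_le_sum h3).trans (le_of_eq ?_)
    rw [Finset.sum_add_distrib, Finset.sum_const, nsmul_eq_mul]
    ring
  have h6 : ∑ k ∈ T, x k ^ 2 = ∑ k ∈ T, x k * x k :=
    Finset.sum_congr rfl fun k _ => sq _
  rw [h6]
  rw [h1] at h0
  linarith

end bessel

end Pool.Agent.H126U.ST
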