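import Pool.Agent.H126U.ST
import Pool.Agent.H126U.Hyp

/-! The Sato–Tate averages of products of quadratic twists. -/

set_option autoImplicit false

namespace Pool.Agent.H126U.ST

open Filter Topology NumberField IsDedekindDomain Pool.Agent.H341R2 Pool.Agent.H341R2.EC
open Pool.Agent.H921R2.TatePole (nm two_le_nm)
open Pool.Agent.H126U Polynomial

variable {K : Type} [Field K] [NumberField K]

open Classical in
/-- prime ideals of norm at most `X` outside `S` -/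
noncomputable def VS (S : Finset (HeightOneSpectrum (𝓞 K))) (X : ℕ) :
    Finset (HeightOneSpectrum (𝓞 K)) := (VX K X).filter fun v => v ∉ S

theorem card_VS (S : Finset (HeightOneSpectrum (𝓞 K))) :
    Tendsto (fun X : ℕ => ((VS S X).card : ℝ) / (Nat.primeCounting X : ℝ)) atTop (𝓝 1) := by
  classical
  have hpi : Tendsto (fun X : ℕ => (Nat.primeCounting X : ℝ)) atTop atTop :=
    tendsto_natCast_atTop_atTop.comp Nat.tendsto_primeCounting
  have h1 : Tendsto (fun X : ℕ => ((VS S X).card : ℝ) / (Nat.primeCounting X : ℝ) -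
      ((VX K X).card : ℝ) / (Nat.primeCounting X : ℝ)) atTop (𝓝 0) := by
    refine squeeze_zero_norm (fun X => ?_) (tendsto_const_nhds.div_atTop hpi :
      Tendsto (fun X : ℕ => (S.card : ℝ) / (Nat.primeCounting X : ℝ)) atTop (𝓝 0))
    have hpi0 : |(Nat.primeCounting X : ℝ)| = Nat.primeCounting X :=
      abs_of_nonneg (Nat.cast_nonneg _)
    rw [← sub_div, Real.norm_eq_abs, abs_div, hpi0]
    refine div_le_div_of_nonneg_right ?_ (Nat.cast_nonneg _)
    have h2 := Finset.card_filter_add_card_filter_not (s := VX K X) (fun v => v ∉ S)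
    have h3 : ((VX K X).filter fun v => ¬ v ∉ S).card ≤ S.card := by
      refine Finset.card_le_card fun v hv => ?_
      exact not_not.1 (Finset.mem_filter.1 hv).2
    have h4 : (VS S X).card + ((VX K X).filter fun v => ¬ v ∉ S).card = (VX K X).card := h2
    have h5 : ((VS S X).card : ℝ) - (VX K X).card =
        -(((VX K X).filter fun v => ¬ v ∉ S).card : ℝ) := by
      rw [← h4]
      push_cast
      ring
    rw [h5, abs_neg, abs_of_nonneg (Nat.cast_nonneg _)]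
    exact_mod_cast h3
  have h6 := h1.add (card_VX (K := K))
  rw [zero_add] at h6
  refine h6.congr fun X => ?_
  ring

theorem mn_VS (S : Finset (HeightOneSpectrum (𝓞 K))) {φ : HeightOneSpectrum (𝓞 K) → ℝ}
    (hφ : ∀ v, |φ v| ≤ 1)
    (h : Tendsto (fun X : ℕ => (∑ v ∈ VX K X, φ v) / (Nat.primeCounting X : ℝ)) atTop (𝓝 0)) :
    Tendsto (fun X : ℕ => mn (VS S X) φ) atTop (𝓝 0) := by
  classical
  have hpi : Tendsto (fun X : ℕ => (Nat.primeCounting X : ℝ)) atTop atTop :=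
    tendsto_natCast_atTop_atTop.comp Nat.tendsto_primeCounting
  have h1 : Tendsto (fun X : ℕ => (∑ v ∈ VS S X, φ v) / (Nat.primeCounting X : ℝ) -
      (∑ v ∈ VX K X, φ v) / (Nat.primeCounting X : ℝ)) atTop (𝓝 0) := by
    refine squeeze_zero_norm (fun X => ?_) (tendsto_const_nhds.div_atTop hpi :
      Tendsto (fun X : ℕ => (S.card : ℝ) / (Nat.primeCounting X : ℝ)) atTop (𝓝 0))
    have hpi0 : |(Nat.primeCounting X : ℝ)| = Nat.primeCounting X :=
      abs_of_nonneg (Nat.cast_nonneg _)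
    rw [← sub_div, Real.norm_eq_abs, abs_div, hpi0]
    refine div_le_div_of_nonneg_right ?_ (Nat.cast_nonneg _)
    have h2 := Finset.sum_filter_add_sum_filter_not (VX K X) (fun v => v ∉ S) φ
    have h5 : ∑ v ∈ VS S X, φ v - ∑ v ∈ VX K X, φ v =
        -(∑ v ∈ (VX K X).filter fun v => ¬ v ∉ S, φ v) := by
      rw [← h2]
      unfold VS
      ring
    rw [h5, abs_neg]
    refine (Finset.abs_sum_le_sum_abs _ _).trans ((Finset.sum_le_card_nsmul _ _ 1
      fun v _ => hφ v).trans ?_)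
    rw [nsmul_eq_mul, mul_one]
    have h3 : ((VX K X).filter fun v => ¬ v ∉ S).card ≤ S.card := by
      refine Finset.card_le_card fun v hv => ?_
      exact not_not.1 (Finset.mem_filter.1 hv).2
    exact_mod_cast h3
  have h6 := h1.add h
  rw [zero_add] at h6
  have h7 : Tendsto (fun X : ℕ => (∑ v ∈ VS S X, φ v) / (Nat.primeCounting X : ℝ)) atTop (𝓝 0) := by
    refine h6.congr fun X => ?_
    ring
  have h8 := h7.div (card_VS S) one_ne_zero
  rw [zero_div] at h8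
  refine h8.congr' ?_
  filter_upwards [hpi.eventually_gt_atTop 0] with X hX
  unfold mn
  exact div_div_div_cancel_right₀ hX.ne' _ _

/-- normalized traces of the powers of Frobenius of the curves `d j y² = f j (x)` -/
noncomputable def xx {r : ℕ} (f : Fin r → (𝓞 K)[X]) (d : Fin r → 𝓞 K)
    (v : HeightOneSpectrum (𝓞 K)) : Fin r → ℕ → ℝ :=
  fun j m => (traceC v (f j) (d j) (m + 1) : ℝ) / Real.sqrt ((nm v : ℝ) ^ (m + 1))

/-- action of signs -/
def act {r : ℕ} (s : Fin r → ℤˣ) (x : Fin r → ℕ → ℝ) : Fin r → ℕ → ℝ :=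
  fun j m => ((s j : ℤ) : ℝ) ^ (m + 1) * x j m

theorem act_act {r : ℕ} (s s' : Fin r → ℤˣ) (x : Fin r → ℕ → ℝ) :
    act s (act s' x) = act (s * s') x := by
  funext j m
  simp only [act, Pi.mul_apply, Units.val_mul, Int.cast_mul, mul_pow]
  ring

/-- average over the signs -/
noncomputable def bar {r : ℕ} (F : (Fin r → ℕ → ℝ) → ℝ) (x : Fin r → ℕ → ℝ) : ℝ :=
  (1 / 2 ^ r : ℝ) * ∑ s : Fin r → ℤˣ, F (act s x)

open Classical in
/-- signs of a twist -/
noncomputable def sgn {r : ℕ} (d : Fin r → 𝓞 K) (v : HeightOneSpectrum (𝓞 K)) : Fin r → ℤˣ :=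
  fun j => if chi (d j) v = 1 then 1 else -1

theorem sgn_eq {r : ℕ} {d : Fin r → 𝓞 K} {v : HeightOneSpectrum (𝓞 K)} {j : Fin r}
    (h : d j ∉ v.asIdeal) : ((sgn d v j : ℤˣ) : ℤ) = chi (d j) v := by
  unfold sgn
  rcases quadraticChar_dichotomy (mk_ne h) with h1 | h1
  · have h2 : chi (d j) v = 1 := h1
    rw [if_pos h2, h2]
    rfl
  · have h2 : chi (d j) v = -1 := h1
    rw [if_neg (by rw [h2]; decide), h2]
    rfl

theorem xx_eq {r : ℕ} {f : Fin r → (𝓞 K)[X]} {d : Fin r → 𝓞 K} {v : HeightOneSpectrum (𝓞 K)}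
    (h : ∀ j, (2 : 𝓞 K) ∉ v.asIdeal ∧ d j ∉ v.asIdeal) :
    xx f d v = act (sgn d v) (xx f (fun _ => 1) v) := by
  funext j m
  unfold xx act
  rw [traceC_eq (h j).1 (h j).2 (m + 1) (Nat.succ_ne_zero m), sgn_eq (h j).2]
  push_cast
  ring

theorem bar_eq {r : ℕ} (F : (Fin r → ℕ → ℝ) → ℝ) (s0 : Fin r → ℤˣ) (x : Fin r → ℕ → ℝ) :
    bar F (act s0 x) = ft (fun s => F (act s x)) ∅ := by
  unfold bar ft
  congr 1
  have h1 : ∀ s : Fin r → ℤˣ, sg s ∅ * F (act s x) = F (act s x) := by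
    intro s
    unfold sg
    rw [Finset.prod_empty, one_mul]
  rw [Finset.sum_congr rfl fun s _ => h1 s,
    ← Equiv.sum_comp (Equiv.mulRight s0) (fun s => F (act s x))]
  refine Finset.sum_congr rfl fun s _ => ?_
  rw [act_act]
  rfl

theorem diff_eq {r : ℕ} {f : Fin r → (𝓞 K)[X]} {d : Fin r → 𝓞 K} {v : HeightOneSpectrum (𝓞 K)}
    (F : (Fin r → ℕ → ℝ) → ℝ) (h : ∀ j, (2 : 𝓞 K) ∉ v.asIdeal ∧ d j ∉ v.asIdeal) :
    F (xx f d v) - bar F (xx f d v) = ∑ A ∈ Finset.univ.erase (∅ : Finset (Fin r)),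
      ft (fun s => F (act s (xx f (fun _ => 1) v))) A * (chi (∏ j ∈ A, d j) v : ℝ) := by
  rw [xx_eq h, bar_eq]
  have h1 : F (act (sgn d v) (xx f (fun _ => 1) v)) = _ :=
    ft_inv (fun s => F (act s (xx f (fun _ => 1) v))) (sgn d v)
  rw [h1, ← Finset.add_sum_erase _ _ (Finset.mem_univ (∅ : Finset (Fin r)))]
  have h2 : sg (sgn d v) ∅ = 1 := Finset.prod_empty
  rw [h2, one_mul, add_sub_cancel_left]
  refine Finset.sum_congr rfl fun A _ => ?_
  rw [mul_comm, chi_prod, Int.cast_prod]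
  congr 1
  unfold sg
  refine Finset.prod_congr rfl fun j _ => ?_
  rw [sgn_eq (h j).2]

theorem main {r : ℕ} (f : Fin r → (𝓞 K)[X]) {κ : Type} (T : Finset κ) (d : κ → Fin r → 𝓞 K)
    (hsep : ∀ k ∈ T, ∀ l ∈ T, k ≠ l → ∀ A : Finset (Fin r), A.Nonempty →
      ¬ IsSquare ((∏ j ∈ A, (d k j * d l j) : 𝓞 K) : K))
    (hd0 : ∀ k ∈ T, ∀ j, d k j ≠ 0)
    (S : Finset (HeightOneSpectrum (𝓞 K)))
    (hS : ∀ v, v ∉ S → ∀ k ∈ T, ∀ j, 2 * d k j ∉ v.asIdeal)
    (F : (Fin r → ℕ → ℝ) → ℝ) (b : ℝ) (hF : ∀ x, |F x| ≤ b) (η : ℝ) (hη : 0 < η) :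
    ∀ᶠ X : ℕ in atTop, ∑ k ∈ T, (mn (VS S X) (fun v => F (xx f (d k) v)) -
      mn (VS S X) (fun v => bar F (xx f (d k) v))) ^ 2 ≤ (2 ^ r - 1) * b ^ 2 + η := by
  classical
  have hb : 0 ≤ b := (abs_nonneg _).trans (hF fun _ _ => 0)
  set P : Finset (Finset (Fin r)) := Finset.univ.erase ∅ with hP
  have hPcard : (P.card : ℝ) = 2 ^ r - 1 := by
    rw [hP, Finset.card_erase_of_mem (Finset.mem_univ _), Finset.card_univ, Fintype.card_finset,
      Fintype.card_fin, Nat.cast_sub Nat.one_le_two_pow]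
    push_cast
    rfl
  have hPn : ∀ A ∈ P, A.Nonempty := fun A hA =>
    Finset.nonempty_iff_ne_empty.2 (Finset.mem_erase.1 hA).1
  set M : ℝ := (P.card : ℝ) ^ 2 * (T.card : ℝ) ^ 2 * b ^ 2 + 1 with hM
  have hM0 : 0 < M := by positivity
  set δ : ℝ := η / M with hδ
  have hδ0 : 0 < δ := by positivity
  have ev : ∀ᶠ X : ℕ in atTop, ∀ A ∈ P, ∀ k ∈ T, ∀ l ∈ T, k ≠ l →
      |mn (VS S X) (fun v => (chi (∏ j ∈ A, d k j) v : ℝ) * (chi (∏ j ∈ A, d l j) v : ℝ))| ≤ δ := by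
    rw [Filter.eventually_all_finset]
    intro A hA
    rw [Filter.eventually_all_finset]
    intro k hk
    rw [Filter.eventually_all_finset]
    intro l hl
    by_cases hkl : k = l
    · exact Filter.Eventually.of_forall fun _ h => absurd hkl h
    · have h1 : (∏ j ∈ A, d k j) * (∏ j ∈ A, d l j) ≠ 0 :=
        mul_ne_zero (Finset.prod_ne_zero_iff.2 fun j _ => hd0 k hk j)
          (Finset.prod_ne_zero_iff.2 fun j _ => hd0 l hl j)
      have h2 : ¬ IsSquare (((∏ j ∈ A, d k j) * (∏ j ∈ A, d l j) : 𝓞 K) : K) := by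
        rw [← Finset.prod_mul_distrib]
        exact hsep k hk l hl hkl A (hPn A hA)
      have h3 := mn_VS S (fun v => chi_abs _ v) (chi_mean h1 h2)
      have h4 : (fun v => (chi (∏ j ∈ A, d k j) v : ℝ) * (chi (∏ j ∈ A, d l j) v : ℝ)) =
          fun v => ((chi ((∏ j ∈ A, d k j) * (∏ j ∈ A, d l j)) v : ℤ) : ℝ) := by
        funext v
        rw [chi_mul]
        push_cast
        rfl
      rw [h4]
      filter_upwards [Metric.tendsto_nhds.1 h3 δ hδ0] with X hX _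
      rw [Real.dist_eq, sub_zero] at hX
      exact hX.le
  filter_upwards [ev] with X hX
  set V := VS S X with hV
  set t : Finset (Fin r) → HeightOneSpectrum (𝓞 K) → ℝ := fun A v =>
    ft (fun s => F (act s (xx f (fun _ => 1) v))) A with ht
  have htb : ∀ A v, |t A v| ≤ b := fun A v => ft_le _ hb (fun s => hF _) A
  have hgood : ∀ v ∈ V, v ∉ S := fun v hv => (Finset.mem_filter.1 hv).2
  have h1 : ∀ k ∈ T, mn V (fun v => F (xx f (d k) v)) - mn V (fun v => bar F (xx f (d k) v)) =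
      ∑ A ∈ P, mn V (fun v => t A v * (chi (∏ j ∈ A, d k j) v : ℝ)) := by
    intro k hk
    rw [← mn_sub, ← mn_sum]
    refine mn_congr V fun v hv => ?_
    refine diff_eq F fun j => ?_
    have h2 := hS v (hgood v hv) k hk j
    exact ⟨fun h => h2 (v.asIdeal.mul_mem_right _ h), fun h => h2 (v.asIdeal.mul_mem_left _ h)⟩
  rw [Finset.sum_congr rfl fun k hk => by rw [h1 k hk]]
  have h2 : ∀ k ∈ T, (∑ A ∈ P, mn V (fun v => t A v * (chi (∏ j ∈ A, d k j) v : ℝ))) ^ 2 ≤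
      P.card * ∑ A ∈ P, mn V (fun v => t A v * (chi (∏ j ∈ A, d k j) v : ℝ)) ^ 2 :=
    fun k _ => sq_sum_le_card_mul_sum_sq
  refine (Finset.sum_le_sum h2).trans ?_
  rw [← Finset.mul_sum, Finset.sum_comm]
  have h3 : ∀ A ∈ P, ∑ k ∈ T, mn V (fun v => t A v * (chi (∏ j ∈ A, d k j) v : ℝ)) ^ 2 ≤
      mn V (fun v => t A v ^ 2) + (T.card : ℝ) ^ 2 * b ^ 2 * δ := fun A hA =>
    bessel V T (t A) (fun k v => (chi (∏ j ∈ A, d k j) v : ℝ)) hb hδ0.le (fun v _ => htb A v)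
      (fun k v _ => chi_abs _ v) (fun k hk l hl hkl => hX A hA k hk l hl hkl)
  have h4 : ∑ A ∈ P, mn V (fun v => t A v ^ 2) ≤ b ^ 2 := by
    rw [← mn_sum]
    refine mn_le V (sq_nonneg b) fun v _ => ?_
    refine le_trans ?_ (parseval_le (fun s => F (act s (xx f (fun _ => 1) v))) (b := b)
      fun s => hF _)
    exact Finset.sum_le_sum_of_subset_of_nonneg (Finset.subset_univ _) fun _ _ _ => sq_nonneg _
  have h5 : ∑ A ∈ P, ∑ k ∈ T, mn V (fun v => t A v * (chi (∏ j ∈ A, d k j) v : ℝ)) ^ 2 ≤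
      b ^ 2 + P.card * ((T.card : ℝ) ^ 2 * b ^ 2 * δ) := by
    refine (Finset.sum_le_sum h3).trans ?_
    rw [Finset.sum_add_distrib, Finset.sum_const, nsmul_eq_mul]
    linarith
  have h6 : (P.card : ℝ) ^ 2 * (T.card : ℝ) ^ 2 * b ^ 2 * δ ≤ η := by
    have e1 : M * δ = η := by
      rw [hδ]
      field_simp
    have e2 : M * δ = (P.card : ℝ) ^ 2 * (T.card : ℝ) ^ 2 * b ^ 2 * δ + δ := by
      rw [hM]
      ring
    linarith
  calc (P.card : ℝ) * ∑ A ∈ P, ∑ k ∈ T,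
        mn V (fun v => t A v * (chi (∏ j ∈ A, d k j) v : ℝ)) ^ 2
      ≤ P.card * (b ^ 2 + P.card * ((T.card : ℝ) ^ 2 * b ^ 2 * δ)) :=
        mul_le_mul_of_nonneg_left h5 (Nat.cast_nonneg _)
    _ = P.card * b ^ 2 + (P.card : ℝ) ^ 2 * (T.card : ℝ) ^ 2 * b ^ 2 * δ := by ring
    _ ≤ (2 ^ r - 1) * b ^ 2 + η := by rw [← hPcard]; linarith

theorem count_of_sum {κ : Type*} (T : Finset κ) (y : ℕ → κ → ℝ) {c : ℝ}
    (h : ∀ η : ℝ, 0 < η → ∀ᶠ X : ℕ in atTop, ∑ k ∈ T, y X k ^ 2 ≤ c + η) {δ : ℝ} (hδ : 0 < δ) :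
    ∀ᶠ X : ℕ in atTop, ((T.filter fun k => δ ≤ |y X k|).card : ℝ) * δ ^ 2 ≤ c := by
  classical
  have h1 : ∀ᶠ X : ℕ in atTop, ∀ n ∈ Finset.range (T.card + 1), c < n * δ ^ 2 →
      (T.filter fun k => δ ≤ |y X k|).card ≠ n := by
    rw [Filter.eventually_all_finset]
    intro n _
    by_cases hn : c < n * δ ^ 2
    · filter_upwards [h ((n * δ ^ 2 - c) / 2) (by linarith)] with X hX _ hcard
      have h2 : (n : ℝ) * δ ^ 2 ≤ ∑ k ∈ T, y X k ^ 2 := by
        calc (n : ℝ) * δ ^ 2 = ∑ k ∈ T.filter (fun k => δ ≤ |y X k|), δ ^ 2 := by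
              rw [Finset.sum_const, hcard, nsmul_eq_mul]
          _ ≤ ∑ k ∈ T.filter (fun k => δ ≤ |y X k|), y X k ^ 2 := by
              refine Finset.sum_le_sum fun k hk => ?_
              rw [← sq_abs (y X k)]
              exact pow_le_pow_left₀ hδ.le (Finset.mem_filter.1 hk).2 2
          _ ≤ ∑ k ∈ T, y X k ^ 2 :=
              Finset.sum_le_sum_of_subset_of_nonneg (Finset.filter_subset _ _)
                fun _ _ _ => sq_nonneg _
      linarith
    · exact Filter.Eventually.of_forall fun _ h2 => absurd h2 hn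
  filter_upwards [h1] with X hX
  by_contra hcon
  push Not at hcon
  refine hX _ ?_ hcon rfl
  rw [Finset.mem_range]
  exact Nat.lt_succ_of_le (Finset.card_filter_le _ _)

end Pool.Agent.H126U.ST
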